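import Mathlib

set_option autoImplicit false

namespace Pool.Agent.MP_571595_lc.H12

open Matrix

/-- 2×2 integer matrices -/
abbrev Mat := Matrix (Fin 2) (Fin 2) ℤ

/-- integer vectors of length two -/
abbrev Vec := Fin 2 → ℤ

/-- `F` is mortal with a zero product of length at most `n`. -/
def MortalWithin (F : Set Mat) (n : ℕ) : Prop :=
  ∃ w : List Mat, w ≠ [] ∧ (∀ A ∈ w, A ∈ F) ∧ w.prod = 0 ∧ w.length ≤ n

/-- `F` is mortal: some nonempty product of members of `F` is zero. -/
def Mortal (F : Set Mat) : Prop :=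
  ∃ w : List Mat, w ≠ [] ∧ (∀ A ∈ w, A ∈ F) ∧ w.prod = 0

theorem mv0 (A : Mat) (x : Vec) : (A.mulVec x) 0 = A 0 0 * x 0 + A 0 1 * x 1 := by
  simp [Matrix.mulVec, dotProduct, Fin.sum_univ_two]

theorem mv1 (A : Mat) (x : Vec) : (A.mulVec x) 1 = A 1 0 * x 0 + A 1 1 * x 1 := by
  simp [Matrix.mulVec, dotProduct, Fin.sum_univ_two]

theorem vec_ext {x y : Vec} (h0 : x 0 = y 0) (h1 : x 1 = y 1) : x = y := by
  funext i
  fin_cases i
  · exact h0
  · exact h1

theorem vec_ne_zero {x : Vec} (h : x ≠ 0) : x 0 ≠ 0 ∨ x 1 ≠ 0 := by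
  by_contra hc
  push Not at hc
  exact h (vec_ext hc.1 hc.2)

/-- the content of a vector -/
def gc (x : Vec) : ℤ := (Int.gcd (x 0) (x 1) : ℤ)

/-- the primitive vector on the half-line of `x` -/
def prim (x : Vec) : Vec := fun i => x i / gc x

theorem gc_nonneg (x : Vec) : 0 ≤ gc x := Int.natCast_nonneg _

theorem gc_pos {x : Vec} (h : x ≠ 0) : 0 < gc x := by
  unfold gc
  rcases vec_ne_zero h with h | h
  · exact_mod_cast Int.gcd_pos_of_ne_zero_left _ h
  · exact_mod_cast Int.gcd_pos_of_ne_zero_right _ h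

theorem gc_dvd (x : Vec) (i : Fin 2) : gc x ∣ x i := by
  fin_cases i
  · exact Int.gcd_dvd_left _ _
  · exact Int.gcd_dvd_right _ _

theorem gc_mul_prim (x : Vec) (i : Fin 2) : gc x * prim x i = x i :=
  Int.mul_ediv_cancel' (gc_dvd x i)

theorem eq_smul_prim (x : Vec) : x = gc x • prim x := by
  funext i
  simp [gc_mul_prim]

theorem prim_ne_zero {x : Vec} (h : x ≠ 0) : prim x ≠ 0 := by
  intro h0
  apply h
  rw [eq_smul_prim x, h0, smul_zero]

theorem gc_prim {x : Vec} (h : x ≠ 0) : gc (prim x) = 1 := by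
  have h1 : 0 < Int.gcd (x 0) (x 1) := by
    have := gc_pos h
    unfold gc at this
    exact_mod_cast this
  unfold gc prim gc
  exact_mod_cast Int.gcd_ediv_gcd_ediv_gcd h1

/-- `d` divides both coordinates iff it divides the content -/
theorem dvd_gc {x : Vec} {d : ℤ} (h0 : d ∣ x 0) (h1 : d ∣ x 1) : d ∣ gc x :=
  Int.dvd_coe_gcd h0 h1

theorem gc_smul {c : ℤ} (hc : 0 < c) (x : Vec) : gc (c • x) = c * gc x := by
  unfold gc
  simp only [Pi.smul_apply, smul_eq_mul]
  rw [Int.gcd_mul_left]
  push_cast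
  rw [abs_of_pos hc]

theorem prim_smul {c : ℤ} (hc : 0 < c) (x : Vec) : prim (c • x) = prim x := by
  funext i
  unfold prim
  rw [gc_smul hc]
  simp only [Pi.smul_apply, smul_eq_mul]
  exact Int.mul_ediv_mul_of_pos _ _ hc

theorem mulVec_ne_zero {A : Mat} (hA : A.det ≠ 0) {x : Vec} (hx : x ≠ 0) : A.mulVec x ≠ 0 := by
  intro h
  exact hx (Matrix.eq_zero_of_mulVec_eq_zero hA h)

theorem list_det_ne_zero {L : List Mat} (h : ∀ A ∈ L, A.det ≠ 0) : L.prod.det ≠ 0 := by
  induction L with
  | nil => simp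
  | cons A L ih =>
    rw [List.prod_cons, Matrix.det_mul]
    exact mul_ne_zero (h A (by simp)) (ih fun B hB => h B (by simp [hB]))

/-- the primitive vector reached from `u` by the product of the list `L` -/
def YY (L : List Mat) (u : Vec) : Vec := prim (L.prod.mulVec u)

theorem YY_nil (u : Vec) : YY [] u = prim u := by simp [YY]

theorem YY_cons (A : Mat) (L : List Mat) (u : Vec) (hL : ∀ A ∈ L, A.det ≠ 0) (hu : u ≠ 0) :
    YY (A :: L) u = prim (A.mulVec (YY L u)) := by
  unfold YY
  have hx : L.prod.mulVec u ≠ 0 := mulVec_ne_zero (list_det_ne_zero hL) hu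
  rw [List.prod_cons, ← Matrix.mulVec_mulVec]
  conv_lhs => rw [eq_smul_prim (L.prod.mulVec u), Matrix.mulVec_smul]
  rw [prim_smul (gc_pos hx)]

theorem YY_ne_zero {L : List Mat} {u : Vec} (hL : ∀ A ∈ L, A.det ≠ 0) (hu : u ≠ 0) :
    YY L u ≠ 0 :=
  prim_ne_zero (mulVec_ne_zero (list_det_ne_zero hL) hu)

theorem gc_YY {L : List Mat} {u : Vec} (hL : ∀ A ∈ L, A.det ≠ 0) (hu : u ≠ 0) :
    gc (YY L u) = 1 :=
  gc_prim (mulVec_ne_zero (list_det_ne_zero hL) hu)

theorem YY_append (L1 L2 : List Mat) (u : Vec) (h1 : ∀ A ∈ L1, A.det ≠ 0)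
    (h2 : ∀ A ∈ L2, A.det ≠ 0) (hu : u ≠ 0) : YY (L1 ++ L2) u = YY L1 (YY L2 u) := by
  induction L1 with
  | nil =>
    have hx : L2.prod.mulVec u ≠ 0 := mulVec_ne_zero (list_det_ne_zero h2) hu
    rw [List.nil_append, YY_nil]
    unfold YY
    conv_rhs => rw [← prim_smul (gc_pos hx), ← eq_smul_prim]
  | cons A L1 ih =>
    have h1' : ∀ A ∈ L1, A.det ≠ 0 := fun B hB => h1 B (by simp [hB])
    have h12 : ∀ A ∈ L1 ++ L2, A.det ≠ 0 := by
      intro B hB
      rcases List.mem_append.1 hB with h | h
      · exact h1' B h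
      · exact h2 B h
    rw [List.cons_append, YY_cons _ _ _ h12 hu, ih h1',
      YY_cons _ _ _ h1' (YY_ne_zero h2 hu)]

/-! ### singular matrices -/

/-- if `S` is singular, `P * S ≠ 0` and `S * Q ≠ 0` then `P * S * Q ≠ 0` -/
theorem singular_mul {P S Q : Mat} (hS : S.det = 0) (h1 : P * S ≠ 0) (h2 : S * Q ≠ 0) :
    P * S * Q ≠ 0 := by
  intro h
  have hd : S 0 0 * S 1 1 - S 0 1 * S 1 0 = 0 := by rw [← Matrix.det_fin_two]; exact hS
  have key : ∀ i l, ∀ k j, (P * S) i j * (S * Q) k l = (P * S * Q) i l * S k j := by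
    intro i l k j
    simp only [Matrix.mul_apply, Fin.sum_univ_two]
    fin_cases k <;> fin_cases j <;> simp only [Fin.zero_eta, Fin.mk_one, Fin.isValue]
    · linear_combination (-(P i 1 * Q 1 l)) * hd
    · linear_combination (P i 1 * Q 0 l) * hd
    · linear_combination (P i 0 * Q 1 l) * hd
    · linear_combination (-(P i 0 * Q 0 l)) * hd
  obtain ⟨i, j, hij⟩ : ∃ i j, (P * S) i j ≠ 0 := by
    by_contra hc
    push Not at hc
    exact h1 (by ext i j; exact hc i j)
  obtain ⟨k, l, hkl⟩ : ∃ k l, (S * Q) k l ≠ 0 := by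
    by_contra hc
    push Not at hc
    exact h2 (by ext i j; exact hc i j)
  have := key i l k j
  rw [h] at this
  simp only [Matrix.zero_apply, zero_mul] at this
  exact (mul_ne_zero hij hkl) this

/-- if `B` is singular, its column `j` is nonzero and killed by `X`, then `X * B = 0` -/
theorem mul_eq_zero_of_col {X B : Mat} (hB : B.det = 0) (j : Fin 2)
    (hj : (fun i => B i j : Vec) ≠ 0) (h : X.mulVec (fun i => B i j) = 0) : X * B = 0 := by
  have hd : B 0 0 * B 1 1 - B 0 1 * B 1 0 = 0 := by rw [← Matrix.det_fin_two]; exact hB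
  obtain ⟨k, hk⟩ : ∃ k, B k j ≠ 0 := by
    by_contra hc
    push Not at hc
    exact hj (by funext i; exact hc i)
  have hX : ∀ i, X i 0 * B 0 j + X i 1 * B 1 j = 0 := by
    intro i
    have := congrFun h i
    simpa [Matrix.mulVec, dotProduct, Fin.sum_univ_two] using this
  ext i l
  rw [Matrix.mul_apply, Fin.sum_univ_two, Matrix.zero_apply]
  have e : B k j * (X i 0 * B 0 l + X i 1 * B 1 l) = 0 := by
    have hXi := hX i
    fin_cases k <;> fin_cases j <;> fin_cases l <;>
      simp only [Fin.zero_eta, Fin.mk_one, Fin.isValue] at hXi ⊢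
    · linear_combination (B 0 0) * hXi
    · linear_combination (B 0 1) * hXi + X i 1 * hd
    · linear_combination (B 0 0) * hXi - X i 1 * hd
    · linear_combination (B 0 1) * hXi
    · linear_combination (B 1 0) * hXi
    · linear_combination (B 1 1) * hXi - X i 0 * hd
    · linear_combination (B 1 0) * hXi + X i 0 * hd
    · linear_combination (B 1 1) * hXi
  exact (mul_eq_zero.1 e).resolve_left hk

theorem left_cancel {A X : Mat} (hA : A.det ≠ 0) (h : A * X = 0) : X = 0 := by
  have h1 : A.det • X = 0 := by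
    rw [← Matrix.one_mul X, ← Matrix.smul_mul, ← Matrix.adjugate_mul, Matrix.mul_assoc, h,
      Matrix.mul_zero]
  exact (smul_eq_zero.1 h1).resolve_left hA

theorem right_cancel {A X : Mat} (hA : A.det ≠ 0) (h : X * A = 0) : X = 0 := by
  have h1 : A.det • X = 0 := by
    rw [← Matrix.mul_one X, ← Matrix.mul_smul, ← Matrix.mul_adjugate, ← Matrix.mul_assoc, h,
      Matrix.zero_mul]
  exact (smul_eq_zero.1 h1).resolve_left hA

/-- The reduction: a bound for the number of primitive vectors met along the nonsingular part of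
a zero product `A * L.prod * B` gives a bound for the length of the shortest zero product. -/
theorem core (F : Set Mat) (M : ℕ)
    (h : ∀ A ∈ F, ∀ B ∈ F, A.det = 0 → B.det = 0 → ∀ L : List Mat, (∀ X ∈ L, X ∈ F) →
      (∀ X ∈ L, X.det ≠ 0) → A ≠ 0 → A * L.prod * B = 0 →
      ∀ j, (fun i => B i j : Vec) ≠ 0 → ∃ T : Finset Vec, T.card ≤ M ∧
        ∀ L1 L2, L = L1 ++ L2 → YY L2 (fun i => B i j) ∈ T)
    (hM : Mortal F) : MortalWithin F (M + 1) := by
  classical
  obtain ⟨w, hw0, hwF, hwz, hmin⟩ : ∃ w : List Mat, w ≠ [] ∧ (∀ A ∈ w, A ∈ F) ∧ w.prod = 0 ∧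
      ∀ w' : List Mat, w' ≠ [] → (∀ A ∈ w', A ∈ F) → w'.prod = 0 → w.length ≤ w'.length := by
    have hex : ∃ n, ∃ w : List Mat, w ≠ [] ∧ (∀ A ∈ w, A ∈ F) ∧ w.prod = 0 ∧ w.length = n := by
      obtain ⟨w, h1, h2, h3⟩ := hM
      exact ⟨_, w, h1, h2, h3, rfl⟩
    obtain ⟨w, h1, h2, h3, h4⟩ := Nat.find_spec hex
    refine ⟨w, h1, h2, h3, fun w' h1' h2' h3' => ?_⟩
    rw [h4]
    exact Nat.find_min' hex ⟨w', h1', h2', h3', rfl⟩
  refine ⟨w, hw0, hwF, hwz, ?_⟩
  -- decompose
  rcases w with _ | ⟨A, t⟩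
  · exact absurd rfl hw0
  rcases List.eq_nil_or_concat' t with rfl | ⟨mid, B, rfl⟩
  · simp
  have hAF : A ∈ F := hwF A (by simp)
  have hBF : B ∈ F := hwF B (by simp)
  have hmidF : ∀ X ∈ mid, X ∈ F := fun X hX => hwF X (by simp [hX])
  have hprod : A * mid.prod * B = 0 := by
    have := hwz
    simp only [List.prod_cons, List.prod_append, List.prod_nil, mul_one] at this
    rw [mul_assoc]
    exact this
  have hlen : (A :: (mid ++ [B])).length = mid.length + 2 := by simp
  rw [hlen] at hmin ⊢
  have hA : A.det = 0 := by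
    by_contra hne
    have h1 : (mid ++ [B]).prod = 0 := by
      apply left_cancel hne
      simpa using hwz
    have := hmin (mid ++ [B]) (by simp) (fun X hX => hwF X (by simp at hX ⊢; tauto)) h1
    simp at this
  have hB : B.det = 0 := by
    by_contra hne
    have h1 : (A :: mid).prod = 0 := by
      apply right_cancel hne
      simpa using hprod
    have := hmin (A :: mid) (by simp) (fun X hX => hwF X (by simp at hX ⊢; tauto)) h1
    simp at this
  have hA0 : A ≠ 0 := by
    intro h0
    have := hmin [A] (by simp) (by simpa using hAF) (by simpa using h0)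
    simp at this
  have hB0 : B ≠ 0 := by
    intro h0
    have := hmin [B] (by simp) (by simpa using hBF) (by simpa using h0)
    simp at this
  have hmid : ∀ X ∈ mid, X.det ≠ 0 := by
    intro S hS hdet
    obtain ⟨m1, m2, rfl⟩ := List.append_of_mem hS
    have h1 : (A :: m1).prod * S ≠ 0 := by
      intro h0
      have := hmin (A :: (m1 ++ [S])) (by simp)
        (fun X hX => hwF X (by simp at hX ⊢; tauto)) (by
          simpa [List.prod_cons, List.prod_append, mul_assoc] using h0)
      simp at this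
    have h2 : S * (m2 ++ [B]).prod ≠ 0 := by
      intro h0
      have := hmin (S :: (m2 ++ [B])) (by simp)
        (fun X hX => hwF X (by simp at hX ⊢; tauto)) (by
          simpa [List.prod_cons, List.prod_append, mul_assoc] using h0)
      simp at this
      omega
    apply singular_mul hdet h1 h2
    simpa [List.prod_cons, List.prod_append, mul_assoc] using hprod
  -- a nonzero column of `B`
  obtain ⟨j, hj⟩ : ∃ j, (fun i => B i j : Vec) ≠ 0 := by
    by_contra hc
    push Not at hc
    exact hB0 (by ext i j; exact congrFun (hc j) i)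
  set u : Vec := fun i => B i j with hu
  obtain ⟨T, hT, hTm⟩ := h A hAF B hBF hA hB mid hmidF hmid hA0 hprod j hj
  -- the states are distinct
  have hinj : ∀ i j : ℕ, i < j → j ≤ mid.length → YY (mid.drop i) u ≠ YY (mid.drop j) u := by
    intro i k hik hk heq
    have hdi : ∀ X ∈ mid.drop i, X.det ≠ 0 := fun X hX => hmid X (List.mem_of_mem_drop hX)
    have hdk : ∀ X ∈ mid.drop k, X.det ≠ 0 := fun X hX => hmid X (List.mem_of_mem_drop hX)
    have hxi : (mid.drop i).prod.mulVec u ≠ 0 := mulVec_ne_zero (list_det_ne_zero hdi) hj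
    have hxk : (mid.drop k).prod.mulVec u ≠ 0 := mulVec_ne_zero (list_det_ne_zero hdk) hj
    have e1 : (A * (mid.take i).prod).mulVec ((mid.drop i).prod.mulVec u) = 0 := by
      rw [Matrix.mulVec_mulVec, mul_assoc, ← List.prod_append, List.take_append_drop]
      funext r
      have := congrFun (congrFun hprod r) j
      simpa [Matrix.mul_apply, Matrix.mulVec, dotProduct, Fin.sum_univ_two, hu] using this
    have e2 : (A * (mid.take i).prod).mulVec (YY (mid.drop i) u) = 0 := by
      rw [eq_smul_prim ((mid.drop i).prod.mulVec u), Matrix.mulVec_smul] at e1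
      exact (smul_eq_zero.1 e1).resolve_left (gc_pos hxi).ne'
    have e3 : (A * (mid.take i).prod).mulVec ((mid.drop k).prod.mulVec u) = 0 := by
      rw [eq_smul_prim ((mid.drop k).prod.mulVec u), Matrix.mulVec_smul]
      change gc _ • (A * (mid.take i).prod).mulVec (YY (mid.drop k) u) = 0
      rw [← heq, e2, smul_zero]
    have e4 : (A * (mid.take i).prod * (mid.drop k).prod) * B = 0 := by
      apply mul_eq_zero_of_col hB j hj
      rw [← Matrix.mulVec_mulVec]
      exact e3
    have := hmin (A :: (mid.take i ++ mid.drop k ++ [B])) (by simp) (by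
      intro X hX
      simp only [List.mem_cons, List.mem_append, List.not_mem_nil, or_false] at hX
      rcases hX with rfl | (hX | hX) | rfl
      · exact hAF
      · exact hmidF X (List.mem_of_mem_take hX)
      · exact hmidF X (List.mem_of_mem_drop hX)
      · exact hBF) (by
      simpa [List.prod_cons, List.prod_append, mul_assoc] using e4)
    simp only [List.length_cons, List.length_append, List.length_take, List.length_drop,
      List.length_nil] at this
    omega
  have hcard : mid.length + 1 ≤ T.card := by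
    have h1 : ((Finset.range (mid.length + 1)).image (fun i => YY (mid.drop i) u)).card
        = mid.length + 1 := by
      rw [Finset.card_image_of_injOn, Finset.card_range]
      intro i hi k hk heq
      simp only [Finset.coe_range, Set.mem_Iio] at hi hk
      by_contra hne
      rcases Nat.lt_or_gt_of_ne hne with hlt | hlt
      · exact hinj i k hlt (by omega) heq
      · exact hinj k i hlt (by omega) heq.symm
    rw [← h1]
    apply Finset.card_le_card
    intro y hy
    rw [Finset.mem_image] at hy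
    obtain ⟨i, _, rfl⟩ := hy
    exact hTm (mid.take i) (mid.drop i) (List.take_append_drop i mid).symm
  omega

end Pool.Agent.MP_571595_lc.H12
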