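import Mathlib
import Pool.Agent.Lib.MP_571595_lc.H12.Core

set_option autoImplicit false

namespace Pool.Agent.MP_571595_lc.H12

open Matrix

/-- the weighted l¹ norm of a vector -/
def nrm (w : Fin 2 → ℤ) (x : Vec) : ℤ := w 0 * |x 0| + w 1 * |x 1|

theorem nrm_nonneg {w : Fin 2 → ℤ} (hw : ∀ i, 0 < w i) (x : Vec) : 0 ≤ nrm w x := by
  unfold nrm
  have := hw 0
  have := hw 1
  positivity

theorem nrm_smul (w : Fin 2 → ℤ) (c : ℤ) (x : Vec) : nrm w (c • x) = |c| * nrm w x := by
  unfold nrm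
  simp only [Pi.smul_apply, smul_eq_mul, abs_mul]
  ring

theorem nrm_eq_gc_mul (w : Fin 2 → ℤ) (x : Vec) : nrm w x = gc x * nrm w (prim x) := by
  conv_lhs => rw [eq_smul_prim x]
  rw [nrm_smul, abs_of_nonneg (gc_nonneg x)]

theorem nrm_prim_le {w : Fin 2 → ℤ} (hw : ∀ i, 0 < w i) {x : Vec} (hx : x ≠ 0) :
    nrm w (prim x) ≤ nrm w x := by
  rw [nrm_eq_gc_mul w x]
  have h1 : 1 ≤ gc x := gc_pos hx
  exact le_mul_of_one_le_left (nrm_nonneg hw _) h1

/-- the adjugate applied to `A x` gives `det A • x` -/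
theorem adj_mulVec (A : Mat) (x : Vec) : A.adjugate.mulVec (A.mulVec x) = A.det • x := by
  rw [Matrix.mulVec_mulVec, Matrix.adjugate_mul, Matrix.smul_mulVec, Matrix.one_mulVec]

theorem adj0 (A : Mat) (z : Vec) : (A.adjugate.mulVec z) 0 = A 1 1 * z 0 - A 0 1 * z 1 := by
  rw [mv0, Matrix.adjugate_fin_two]
  simp
  ring

theorem adj1 (A : Mat) (z : Vec) : (A.adjugate.mulVec z) 1 = -(A 1 0 * z 0) + A 0 0 * z 1 := by
  rw [mv1, Matrix.adjugate_fin_two]
  simp

/-- for primitive `y` the content of `A y` divides `det A` -/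
theorem gc_mulVec_dvd {A : Mat} {y : Vec} (hy : gc y = 1) : gc (A.mulVec y) ∣ A.det := by
  have h := adj_mulVec A y
  have h0 : gc (A.mulVec y) ∣ A.det * y 0 := by
    have := congrFun h 0
    rw [adj0] at this
    simp only [Pi.smul_apply, smul_eq_mul] at this
    rw [← this]
    exact dvd_sub ((gc_dvd (A.mulVec y) 0).mul_left _) ((gc_dvd (A.mulVec y) 1).mul_left _)
  have h1 : gc (A.mulVec y) ∣ A.det * y 1 := by
    have := congrFun h 1
    rw [adj1] at this
    simp only [Pi.smul_apply, smul_eq_mul] at this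
    rw [← this]
    exact dvd_add (((gc_dvd (A.mulVec y) 0).mul_left _).neg_right)
      ((gc_dvd (A.mulVec y) 1).mul_left _)
  have h2 : gc (A.mulVec y) ∣ (Int.gcd (A.det * y 0) (A.det * y 1) : ℤ) := Int.dvd_coe_gcd h0 h1
  rw [Int.gcd_mul_left] at h2
  unfold gc at hy
  rw [show Int.gcd (y 0) (y 1) = 1 by exact_mod_cast hy, mul_one] at h2
  exact Int.dvd_natAbs.1 h2

/-- the primitive vector on the kernel line of `A ≠ 0` has small coordinates -/
theorem kernel_coord {A : Mat} (hA : A ≠ 0) {H : ℤ}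
    (hH : ∀ i j, |A i j| ≤ H) {y : Vec} (hy : gc y = 1) (h : A.mulVec y = 0) :
    |y 0| ≤ H ∧ |y 1| ≤ H := by
  obtain ⟨i, hi⟩ : ∃ i, A i 0 ≠ 0 ∨ A i 1 ≠ 0 := by
    by_contra hc
    push Not at hc
    apply hA
    ext i j
    fin_cases j
    · exact (hc i).1
    · exact (hc i).2
  have hrow : A i 0 * y 0 + A i 1 * y 1 = 0 := by
    have := congrFun h i
    simpa [Matrix.mulVec, dotProduct, Fin.sum_univ_two] using this
  have hcop : IsCoprime (y 0) (y 1) := by
    rw [Int.isCoprime_iff_gcd_eq_one]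
    unfold gc at hy
    exact_mod_cast hy
  have hH0 : 0 ≤ H := (abs_nonneg _).trans (hH 0 0)
  have d0 : y 0 ∣ A i 1 := by
    have h1 : y 0 ∣ A i 1 * y 1 := ⟨-A i 0, by linarith⟩
    exact hcop.dvd_of_dvd_mul_right h1
  have d1 : y 1 ∣ A i 0 := by
    have h1 : y 1 ∣ A i 0 * y 0 := ⟨-A i 1, by linarith⟩
    exact hcop.symm.dvd_of_dvd_mul_right h1
  constructor
  · by_cases h1 : A i 1 = 0
    · have h2 : A i 0 ≠ 0 := by
        rcases hi with h | h
        · exact h
        · exact absurd h1 h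
      rw [h1] at hrow
      have h3 : y 0 = 0 := by
        rcases mul_eq_zero.1 (by linarith : A i 0 * y 0 = 0) with h | h
        · exact absurd h h2
        · exact h
      rw [h3, abs_zero]
      exact hH0
    · have h2 : |y 0| ≤ |A i 1| := Int.le_of_dvd (abs_pos.2 h1) ((abs_dvd_abs _ _).2 d0)
      exact h2.trans (hH i 1)
  · by_cases h1 : A i 0 = 0
    · have h2 : A i 1 ≠ 0 := by
        rcases hi with h | h
        · exact absurd h1 h
        · exact h
      rw [h1] at hrow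
      have h3 : y 1 = 0 := by
        rcases mul_eq_zero.1 (by linarith : A i 1 * y 1 = 0) with h | h
        · exact absurd h h2
        · exact h
      rw [h3, abs_zero]
      exact hH0
    · have h2 : |y 1| ≤ |A i 0| := Int.le_of_dvd (abs_pos.2 h1) ((abs_dvd_abs _ _).2 d1)
      exact h2.trans (hH i 0)

/-- the norm of the primitive vector on the kernel line of `A ≠ 0` -/
theorem nrm_kernel {w : Fin 2 → ℤ} (hw : ∀ i, 0 < w i) {A : Mat} (hA : A ≠ 0) {H : ℤ}
    (hH : ∀ i j, |A i j| ≤ H) {y : Vec} (hy : gc y = 1) (h : A.mulVec y = 0) :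
    nrm w y ≤ (w 0 + w 1) * H := by
  obtain ⟨b0, b1⟩ := kernel_coord hA hH hy h
  unfold nrm
  have := hw 0
  have := hw 1
  nlinarith

/-- the box of vectors of norm at most `R` -/
noncomputable def box (R : ℤ) : Finset Vec :=
  Fintype.piFinset fun _ : Fin 2 => Finset.Icc (-R) R

theorem box_card {R : ℕ} : (box (R : ℤ)).card = (2 * R + 1) ^ 2 := by
  unfold box
  rw [Fintype.card_piFinset]
  simp only [Int.card_Icc, Finset.prod_const, Finset.card_univ, Fintype.card_fin]
  congr 1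
  omega

theorem mem_box {R : ℤ} {y : Vec} : y ∈ box R ↔ ∀ i, |y i| ≤ R := by
  unfold box
  rw [Fintype.mem_piFinset]
  constructor
  · intro h i
    have := h i
    rw [Finset.mem_Icc] at this
    exact abs_le.2 this
  · intro h i
    rw [Finset.mem_Icc]
    exact abs_le.1 (h i)

theorem mem_box_of_nrm {w : Fin 2 → ℤ} (hw : ∀ i, 0 < w i) {y : Vec} {R : ℤ}
    (h : nrm w y ≤ R) : y ∈ box R := by
  rw [mem_box]
  intro i
  unfold nrm at h
  have h0 := hw 0
  have h1 := hw 1
  have a0 := abs_nonneg (y 0)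
  have a1 := abs_nonneg (y 1)
  fin_cases i
  · simp only [Fin.zero_eta, Fin.isValue]
    nlinarith
  · simp only [Fin.mk_one, Fin.isValue]
    nlinarith

end Pool.Agent.MP_571595_lc.H12
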