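import Mathlib
import Pool.Agent.Lib.MP_571595_lc.H12.Norm

set_option autoImplicit false

namespace Pool.Agent.MP_571595_lc.H12

open Matrix

/-- The condition on the nonsingular members: entries of one sign, and the positive vectors `v`
and `w` satisfy `|A| v ≥ |det A| v` and `wᵀ |A| ≥ |det A| wᵀ`. -/
def ConeOK (v w : Fin 2 → ℤ) (A : Mat) : Prop :=
  (∀ i j k l, 0 ≤ A i j * A k l) ∧
  (∀ i, |A.det| * v i ≤ |A i 0| * v 0 + |A i 1| * v 1) ∧
  (∀ j, |A.det| * w j ≤ w 0 * |A 0 j| + w 1 * |A 1 j|)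

/-- the swapped weights, used for the norm in the backward phase -/
def sw (v : Fin 2 → ℤ) : Fin 2 → ℤ := ![v 1, v 0]

theorem sw0 (v : Fin 2 → ℤ) : sw v 0 = v 1 := rfl
theorem sw1 (v : Fin 2 → ℤ) : sw v 1 = v 0 := rfl

theorem sw_pos {v : Fin 2 → ℤ} (hv : ∀ i, 0 < v i) : ∀ i, 0 < sw v i := by
  intro i
  fin_cases i
  · exact hv 1
  · exact hv 0

theorem abs_add_same {a b : ℤ} (h : 0 ≤ a * b) : |a + b| = |a| + |b| := by
  rcases le_total 0 a with ha | ha <;> rcases le_total 0 b with hb | hb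
  · rw [abs_of_nonneg ha, abs_of_nonneg hb, abs_of_nonneg (by linarith)]
  · have : a * b ≤ 0 := mul_nonpos_of_nonneg_of_nonpos ha hb
    rcases mul_eq_zero.1 (le_antisymm this h) with h0 | h0
    · rw [h0]; simp
    · rw [h0]; simp
  · have : a * b ≤ 0 := mul_nonpos_of_nonpos_of_nonneg ha hb
    rcases mul_eq_zero.1 (le_antisymm this h) with h0 | h0
    · rw [h0]; simp
    · rw [h0]; simp
  · rw [abs_of_nonpos ha, abs_of_nonpos hb, abs_of_nonpos (by linarith)]
    ring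

/-- in the cone: the norm of the primitive vector does not decrease -/
theorem step_cone {v w : Fin 2 → ℤ} (hw : ∀ i, 0 < w i) {A : Mat} (hA : ConeOK v w A)
    (hdet : A.det ≠ 0) {y : Vec} (hy : gc y = 1) (hy0 : y ≠ 0) (hC : 0 ≤ y 0 * y 1) :
    0 ≤ prim (A.mulVec y) 0 * prim (A.mulVec y) 1 ∧ nrm w y ≤ nrm w (prim (A.mulVec y)) := by
  obtain ⟨hs, _, hcol⟩ := hA
  have hz : A.mulVec y ≠ 0 := mulVec_ne_zero hdet hy0
  have hg := gc_pos hz
  have hgd := gc_mulVec_dvd (A := A) hy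
  have e0 := gc_mul_prim (A.mulVec y) 0
  have e1 := gc_mul_prim (A.mulVec y) 1
  have hprod : 0 ≤ (A.mulVec y) 0 * (A.mulVec y) 1 := by
    rw [mv0, mv1]
    have t1 : 0 ≤ A 0 0 * A 1 0 * (y 0 * y 0) := mul_nonneg (hs _ _ _ _) (mul_self_nonneg _)
    have t2 : 0 ≤ A 0 1 * A 1 1 * (y 1 * y 1) := mul_nonneg (hs _ _ _ _) (mul_self_nonneg _)
    have t3 : 0 ≤ (A 0 0 * A 1 1) * (y 0 * y 1) := mul_nonneg (hs _ _ _ _) hC
    have t4 : 0 ≤ (A 0 1 * A 1 0) * (y 0 * y 1) := mul_nonneg (hs _ _ _ _) hC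
    nlinarith
  constructor
  · rw [← e0, ← e1] at hprod
    have : 0 ≤ (gc (A.mulVec y) * gc (A.mulVec y)) *
        (prim (A.mulVec y) 0 * prim (A.mulVec y) 1) := by linarith
    exact nonneg_of_mul_nonneg_right this (by positivity)
  · have h1 : |A.det| * nrm w y ≤ nrm w (A.mulVec y) := by
      unfold nrm
      rw [mv0, mv1]
      have a0 : |A 0 0 * y 0 + A 0 1 * y 1| = |A 0 0| * |y 0| + |A 0 1| * |y 1| := by
        rw [abs_add_same, abs_mul, abs_mul]
        have := mul_nonneg (hs 0 0 0 1) hC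
        linarith
      have a1 : |A 1 0 * y 0 + A 1 1 * y 1| = |A 1 0| * |y 0| + |A 1 1| * |y 1| := by
        rw [abs_add_same, abs_mul, abs_mul]
        have := mul_nonneg (hs 1 0 1 1) hC
        linarith
      rw [a0, a1]
      have c0 := mul_le_mul_of_nonneg_right (hcol 0) (abs_nonneg (y 0))
      have c1 := mul_le_mul_of_nonneg_right (hcol 1) (abs_nonneg (y 1))
      nlinarith
    have h2 : nrm w (A.mulVec y) ≤ |A.det| * nrm w (prim (A.mulVec y)) := by
      rw [nrm_eq_gc_mul w (A.mulVec y)]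
      apply mul_le_mul_of_nonneg_right _ (nrm_nonneg hw _)
      exact Int.le_of_dvd (abs_pos.2 hdet) ((dvd_abs _ _).2 hgd)
    have h3 : 0 < |A.det| := abs_pos.2 hdet
    exact le_of_mul_le_mul_left (h1.trans h2) h3

/-- outside the cone: going backwards, the norm does not decrease -/
theorem step_back {v w : Fin 2 → ℤ} (hv : ∀ i, 0 < v i) {A : Mat} (hA : ConeOK v w A)
    (hdet : A.det ≠ 0) {y : Vec} (hy0 : y ≠ 0)
    (hC : prim (A.mulVec y) 0 * prim (A.mulVec y) 1 ≤ 0) :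
    y 0 * y 1 ≤ 0 ∧ nrm (sw v) (prim (A.mulVec y)) ≤ nrm (sw v) y := by
  obtain ⟨hs, hrow, _⟩ := hA
  have hz : A.mulVec y ≠ 0 := mulVec_ne_zero hdet hy0
  have hg := gc_pos hz
  set z := prim (A.mulVec y) with hzdef
  set g := gc (A.mulVec y) with hgdef
  have hadj : A.det • y = g • A.adjugate.mulVec z := by
    rw [← adj_mulVec, ← Matrix.mulVec_smul, ← eq_smul_prim]
  have q0 : A.det * y 0 = g * (A 1 1 * z 0 - A 0 1 * z 1) := by
    have := congrFun hadj 0
    simp only [Pi.smul_apply, smul_eq_mul, adj0] at this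
    exact this
  have q1 : A.det * y 1 = g * (-(A 1 0 * z 0) + A 0 0 * z 1) := by
    have := congrFun hadj 1
    simp only [Pi.smul_apply, smul_eq_mul, adj1] at this
    exact this
  have hdet2 : 0 < A.det * A.det := mul_self_pos.2 hdet
  have hw' := sw_pos hv
  constructor
  · have h1 : (A 1 1 * z 0 - A 0 1 * z 1) * (-(A 1 0 * z 0) + A 0 0 * z 1) ≤ 0 := by
      have t1 : 0 ≤ A 1 1 * A 1 0 * (z 0 * z 0) := mul_nonneg (hs _ _ _ _) (mul_self_nonneg _)
      have t2 : 0 ≤ A 0 1 * A 0 0 * (z 1 * z 1) := mul_nonneg (hs _ _ _ _) (mul_self_nonneg _)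
      have t3 : (A 1 1 * A 0 0) * (z 0 * z 1) ≤ 0 :=
        mul_nonpos_of_nonneg_of_nonpos (hs _ _ _ _) hC
      have t4 : (A 0 1 * A 1 0) * (z 0 * z 1) ≤ 0 :=
        mul_nonpos_of_nonneg_of_nonpos (hs _ _ _ _) hC
      nlinarith
    have h2 : (A.det * A.det) * (y 0 * y 1) = (g * g) *
        ((A 1 1 * z 0 - A 0 1 * z 1) * (-(A 1 0 * z 0) + A 0 0 * z 1)) := by
      linear_combination (A.det * y 1) * q0 + g * (A 1 1 * z 0 - A 0 1 * z 1) * q1
    have h3 : (A.det * A.det) * (y 0 * y 1) ≤ 0 := by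
      rw [h2]
      exact mul_nonpos_of_nonneg_of_nonpos (by positivity) h1
    by_contra hc
    push Not at hc
    have := mul_pos hdet2 hc
    linarith
  · have h1 : |A.det| * nrm (sw v) z ≤ nrm (sw v) (A.adjugate.mulVec z) := by
      unfold nrm
      rw [adj0, adj1, sw0, sw1]
      have a0 : |A 1 1 * z 0 - A 0 1 * z 1| = |A 1 1| * |z 0| + |A 0 1| * |z 1| := by
        rw [sub_eq_add_neg, abs_add_same, abs_neg, abs_mul, abs_mul]
        have := mul_nonpos_of_nonneg_of_nonpos (hs 1 1 0 1) hC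
        linarith
      have a1 : |-(A 1 0 * z 0) + A 0 0 * z 1| = |A 1 0| * |z 0| + |A 0 0| * |z 1| := by
        rw [abs_add_same, abs_neg, abs_mul, abs_mul]
        have := mul_nonpos_of_nonneg_of_nonpos (hs 1 0 0 0) hC
        linarith
      rw [a0, a1]
      have c0 := mul_le_mul_of_nonneg_right (hrow 1) (abs_nonneg (z 0))
      have c1 := mul_le_mul_of_nonneg_right (hrow 0) (abs_nonneg (z 1))
      nlinarith
    have h2 : |A.det| * nrm (sw v) y = g * nrm (sw v) (A.adjugate.mulVec z) := by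
      rw [← nrm_smul, hadj, nrm_smul, abs_of_pos hg]
    have h3 : nrm (sw v) (A.adjugate.mulVec z) ≤ g * nrm (sw v) (A.adjugate.mulVec z) :=
      le_mul_of_one_le_left (nrm_nonneg hw' _) hg
    have h4 : 0 < |A.det| := abs_pos.2 hdet
    have h5 : |A.det| * nrm (sw v) z ≤ |A.det| * nrm (sw v) y := by
      rw [h2]; exact h1.trans h3
    exact le_of_mul_le_mul_left h5 h4

theorem path_cone {v w : Fin 2 → ℤ} (hw : ∀ i, 0 < w i) {L : List Mat}
    (hL : ∀ A ∈ L, ConeOK v w A ∧ A.det ≠ 0) {y : Vec} (hy : gc y = 1) (hy0 : y ≠ 0)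
    (hC : 0 ≤ y 0 * y 1) :
    0 ≤ YY L y 0 * YY L y 1 ∧ nrm w y ≤ nrm w (YY L y) := by
  induction L with
  | nil =>
    have hp : prim y = y := by
      funext i
      unfold prim
      rw [hy, Int.ediv_one]
    rw [YY_nil, hp]
    exact ⟨hC, le_rfl⟩
  | cons A L ih =>
    have hL' : ∀ A ∈ L, ConeOK v w A ∧ A.det ≠ 0 := fun B hB => hL B (by simp [hB])
    have hLd : ∀ A ∈ L, A.det ≠ 0 := fun B hB => (hL' B hB).2
    obtain ⟨h1, h2⟩ := ih hL'
    rw [YY_cons A L y hLd hy0]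
    obtain ⟨h3, h4⟩ := step_cone hw (hL A (by simp)).1 (hL A (by simp)).2
      (gc_YY hLd hy0) (YY_ne_zero hLd hy0) h1
    exact ⟨h3, h2.trans h4⟩

theorem path_back {v w : Fin 2 → ℤ} (hv : ∀ i, 0 < v i) {L : List Mat}
    (hL : ∀ A ∈ L, ConeOK v w A ∧ A.det ≠ 0) {u : Vec} (hu : u ≠ 0)
    (hC : YY L u 0 * YY L u 1 ≤ 0) : nrm (sw v) (YY L u) ≤ nrm (sw v) (prim u) := by
  induction L with
  | nil => rw [YY_nil]
  | cons A L ih =>
    have hL' : ∀ A ∈ L, ConeOK v w A ∧ A.det ≠ 0 := fun B hB => hL B (by simp [hB])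
    have hLd : ∀ A ∈ L, A.det ≠ 0 := fun B hB => (hL' B hB).2
    rw [YY_cons A L u hLd hu] at hC ⊢
    obtain ⟨h3, h4⟩ := step_back hv (hL A (by simp)).1 (hL A (by simp)).2
      (YY_ne_zero hLd hu) hC
    exact h4.trans (ih hL' h3)

theorem mortal_cone (F : Set Mat) (v w : Fin 2 → ℤ) (hv : ∀ i, 0 < v i) (hw : ∀ i, 0 < w i)
    (H R : ℕ) (hR1 : (v 0 + v 1) * H ≤ R) (hR2 : (w 0 + w 1) * H ≤ R)
    (hS : ∀ A ∈ F, A.det = 0 → ∀ i j, |A i j| ≤ (H : ℤ))
    (hN : ∀ A ∈ F, A.det ≠ 0 → ConeOK v w A) (hM : Mortal F) :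
    MortalWithin F ((2 * R + 1) ^ 2 + 1) := by
  apply core F ((2 * R + 1) ^ 2) _ hM
  intro A hA B hB hAd hBd L hLF hLd hA0 hprod j hj
  refine ⟨box (R : ℤ), by rw [box_card], ?_⟩
  intro L1 L2 hL
  set u : Vec := fun i => B i j with hu
  have hok : ∀ X ∈ L, ConeOK v w X ∧ X.det ≠ 0 :=
    fun X hX => ⟨hN X (hLF X hX) (hLd X hX), hLd X hX⟩
  have hok1 : ∀ X ∈ L1, ConeOK v w X ∧ X.det ≠ 0 := fun X hX => hok X (by rw [hL]; simp [hX])
  have hok2 : ∀ X ∈ L2, ConeOK v w X ∧ X.det ≠ 0 := fun X hX => hok X (by rw [hL]; simp [hX])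
  have hd1 : ∀ X ∈ L1, X.det ≠ 0 := fun X hX => (hok1 X hX).2
  have hd2 : ∀ X ∈ L2, X.det ≠ 0 := fun X hX => (hok2 X hX).2
  rcases le_total 0 (YY L2 u 0 * YY L2 u 1) with hC | hC
  · -- inside the cone: compare with the final vector
    have h1 := (path_cone hw hok1 (gc_YY hd2 hj) (YY_ne_zero hd2 hj) hC).2
    rw [← YY_append L1 L2 u hd1 hd2 hj, ← hL] at h1
    have hker : A.mulVec (YY L u) = 0 := by
      have e1 : A.mulVec (L.prod.mulVec u) = 0 := by
        rw [Matrix.mulVec_mulVec]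
        funext r
        have := congrFun (congrFun hprod r) j
        simpa [Matrix.mul_apply, Matrix.mulVec, dotProduct, Fin.sum_univ_two, hu] using this
      rw [eq_smul_prim (L.prod.mulVec u), Matrix.mulVec_smul] at e1
      exact (smul_eq_zero.1 e1).resolve_left
        (gc_pos (mulVec_ne_zero (list_det_ne_zero hLd) hj)).ne'
    have h2 := nrm_kernel hw hA0 (hS A hA hAd) (gc_YY hLd hj) hker
    exact mem_box_of_nrm hw ((h1.trans h2).trans hR2)
  · -- outside the cone: compare with the initial vector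
    have hw' := sw_pos hv
    have h1 := path_back hv hok2 hj hC
    have h2 := nrm_prim_le hw' hj
    have h3 : nrm (sw v) u ≤ (v 0 + v 1) * H := by
      unfold nrm
      rw [sw0, sw1]
      have b0 : |u 0| ≤ (H : ℤ) := hS B hB hBd 0 j
      have b1 : |u 1| ≤ (H : ℤ) := hS B hB hBd 1 j
      have := hv 0
      have := hv 1
      nlinarith
    exact mem_box_of_nrm hw' (((h1.trans h2).trans h3).trans hR1)

end Pool.Agent.MP_571595_lc.H12
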