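import Mathlib
import Pool.Agent.Lib.MP_571595_lc.H12.Norm

set_option autoImplicit false

namespace Pool.Agent.MP_571595_lc.H12

open Matrix

/-- The condition on the nonsingular members: the determinant is `±p^k` with `k ≥ 1`, and the
positive vectors `v`, `w` satisfy `|A| v ≤ |det A| v` and `wᵀ |A| ≤ |det A| wᵀ`. -/
def PrimeOK (p : ℕ) (v w : Fin 2 → ℤ) (A : Mat) : Prop :=
  (∃ k : ℕ, 1 ≤ k ∧ |A.det| = (p : ℤ) ^ k) ∧
  (∀ i, |A i 0| * v 0 + |A i 1| * v 1 ≤ |A.det| * v i) ∧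
  (∀ j, w 0 * |A 0 j| + w 1 * |A 1 j| ≤ |A.det| * w j)

/-- the swapped weights -/
def swp (v : Fin 2 → ℤ) : Fin 2 → ℤ := ![v 1, v 0]

theorem swp0 (v : Fin 2 → ℤ) : swp v 0 = v 1 := rfl
theorem swp1 (v : Fin 2 → ℤ) : swp v 1 = v 0 := rfl

theorem swp_pos {v : Fin 2 → ℤ} (hv : ∀ i, 0 < v i) : ∀ i, 0 < swp v i := by
  intro i
  fin_cases i
  · exact hv 1
  · exact hv 0

/-- `p` divides both coordinates -/
def PD (p : ℕ) (x : Vec) : Prop := (p : ℤ) ∣ x 0 ∧ (p : ℤ) ∣ x 1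

/-- `p` divides all entries -/
def PDM (p : ℕ) (A : Mat) : Prop := ∀ i j, (p : ℤ) ∣ A i j

theorem not_PD_of_gc {p : ℕ} (hp : p.Prime) {y : Vec} (hy : gc y = 1) : ¬ PD p y := by
  intro h
  have h1 := dvd_gc h.1 h.2
  rw [hy] at h1
  have h2 : p ∣ 1 := by exact_mod_cast h1
  exact hp.one_lt.ne' (Nat.dvd_one.1 h2)

/-- modulo `p`: if `p ∣ det A`, `A y ≢ 0` and `B A y ≡ 0` then `B A ≡ 0` -/
theorem pd_mul {p : ℕ} (hp : p.Prime) {A B : Mat} (hA : (p : ℤ) ∣ A.det) {y : Vec}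
    (h1 : ¬ PD p (A.mulVec y)) (h2 : PD p (B.mulVec (A.mulVec y))) : PDM p (B * A) := by
  have hpp : Prime (p : ℤ) := Nat.prime_iff_prime_int.1 hp
  rw [Matrix.det_fin_two] at hA
  obtain ⟨c, hc⟩ := hA
  obtain ⟨⟨s, hs⟩, ⟨t, ht⟩⟩ := h2
  rw [mv0] at hs
  rw [mv1] at ht
  set z0 := (A.mulVec y) 0 with hz0
  set z1 := (A.mulVec y) 1 with hz1
  have ez0 : z0 = A 0 0 * y 0 + A 0 1 * y 1 := mv0 A y
  have ez1 : z1 = A 1 0 * y 0 + A 1 1 * y 1 := mv1 A y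
  -- minors: A 0 j * z1 - A 1 j * z0 is divisible by p
  have hmin : ∀ j, (p : ℤ) ∣ A 0 j * z1 - A 1 j * z0 := by
    intro j
    rw [ez0, ez1]
    fin_cases j
    · exact ⟨c * y 1, by simp only [Fin.zero_eta, Fin.isValue]; linear_combination (y 1) * hc⟩
    · exact ⟨-(c * y 0), by simp only [Fin.mk_one, Fin.isValue]; linear_combination (-(y 0)) * hc⟩
  have hB : ∀ i, (p : ℤ) ∣ B i 0 * z0 + B i 1 * z1 := by
    intro i
    fin_cases i
    · exact ⟨s, hs⟩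
    · exact ⟨t, ht⟩
  intro i j
  rw [Matrix.mul_apply, Fin.sum_univ_two]
  obtain ⟨m, hm⟩ := hmin j
  obtain ⟨n, hn⟩ := hB i
  have k0 : (p : ℤ) ∣ z0 * (B i 0 * A 0 j + B i 1 * A 1 j) :=
    ⟨n * A 0 j - B i 1 * m, by linear_combination (A 0 j) * hn - (B i 1) * hm⟩
  have k1 : (p : ℤ) ∣ z1 * (B i 0 * A 0 j + B i 1 * A 1 j) :=
    ⟨n * A 1 j + B i 0 * m, by linear_combination (A 1 j) * hn + (B i 0) * hm⟩
  rcases hpp.dvd_or_dvd k0 with h | h
  · rcases hpp.dvd_or_dvd k1 with h' | h'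
    · exact absurd ⟨h, h'⟩ h1
    · exact h'
  · exact h

/-- modulo `p`: a nonzero vector in the kernel of `adj A` lies in the image of `A` -/
theorem pd_adj {p : ℕ} (hp : p.Prime) {A B : Mat} {z : Vec} (h1 : PD p (A.adjugate.mulVec z)) (h2 : PD p (B.mulVec z)) (hz : ¬ PD p z) :
    PDM p (B * A) := by
  have hpp : Prime (p : ℤ) := Nat.prime_iff_prime_int.1 hp
  obtain ⟨⟨s, hs⟩, ⟨t, ht⟩⟩ := h1
  rw [adj0] at hs
  rw [adj1] at ht
  obtain ⟨⟨s', hs'⟩, ⟨t', ht'⟩⟩ := h2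
  rw [mv0] at hs'
  rw [mv1] at ht'
  have hB : ∀ i, (p : ℤ) ∣ B i 0 * z 0 + B i 1 * z 1 := by
    intro i
    fin_cases i
    · exact ⟨s', hs'⟩
    · exact ⟨t', ht'⟩
  have hmin : ∀ j, (p : ℤ) ∣ A 0 j * z 1 - A 1 j * z 0 := by
    intro j
    fin_cases j
    · exact ⟨t, by simp only [Fin.zero_eta, Fin.isValue]; linarith⟩
    · exact ⟨-s, by simp only [Fin.mk_one, Fin.isValue]; linarith⟩
  intro i j
  rw [Matrix.mul_apply, Fin.sum_univ_two]
  obtain ⟨m, hm⟩ := hmin j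
  obtain ⟨n, hn⟩ := hB i
  have k0 : (p : ℤ) ∣ z 0 * (B i 0 * A 0 j + B i 1 * A 1 j) :=
    ⟨n * A 0 j - B i 1 * m, by linear_combination (A 0 j) * hn - (B i 1) * hm⟩
  have k1 : (p : ℤ) ∣ z 1 * (B i 0 * A 0 j + B i 1 * A 1 j) :=
    ⟨n * A 1 j + B i 0 * m, by linear_combination (A 1 j) * hn + (B i 0) * hm⟩
  rcases hpp.dvd_or_dvd k0 with h | h
  · rcases hpp.dvd_or_dvd k1 with h' | h'
    · exact absurd ⟨h, h'⟩ hz
    · exact h'
  · exact h

/-- `y` is switched: no member of `N` maps it to a multiple of `p` -/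
def Sw (p : ℕ) (N : Set Mat) (y : Vec) : Prop := ∀ A ∈ N, ¬ PD p (A.mulVec y)

theorem adj_nrm_le {w' : Fin 2 → ℤ} {D : ℤ} {A : Mat}
    (h0 : |A 1 1| * w' 0 + |A 1 0| * w' 1 ≤ D * w' 0)
    (h1 : |A 0 1| * w' 0 + |A 0 0| * w' 1 ≤ D * w' 1) (hw' : ∀ i, 0 < w' i) (z : Vec) :
    nrm w' (A.adjugate.mulVec z) ≤ D * nrm w' z := by
  unfold nrm
  rw [adj0, adj1]
  have a0 : |A 1 1 * z 0 - A 0 1 * z 1| ≤ |A 1 1| * |z 0| + |A 0 1| * |z 1| := by
    rw [← abs_mul, ← abs_mul]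
    exact abs_sub _ _
  have a1 : |-(A 1 0 * z 0) + A 0 0 * z 1| ≤ |A 1 0| * |z 0| + |A 0 0| * |z 1| := by
    rw [← abs_mul, ← abs_mul, ← abs_neg (A 1 0 * z 0)]
    exact abs_add_le _ _
  have b0 := mul_le_mul_of_nonneg_left a0 (hw' 0).le
  have b1 := mul_le_mul_of_nonneg_left a1 (hw' 1).le
  have c0 := mul_le_mul_of_nonneg_right h0 (abs_nonneg (z 0))
  have c1 := mul_le_mul_of_nonneg_right h1 (abs_nonneg (z 1))
  nlinarith

theorem mul_nrm_le {w : Fin 2 → ℤ} {D : ℤ} {A : Mat}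
    (h : ∀ j, w 0 * |A 0 j| + w 1 * |A 1 j| ≤ D * w j) (hw : ∀ i, 0 < w i) (y : Vec) :
    nrm w (A.mulVec y) ≤ D * nrm w y := by
  unfold nrm
  rw [mv0, mv1]
  have a0 : |A 0 0 * y 0 + A 0 1 * y 1| ≤ |A 0 0| * |y 0| + |A 0 1| * |y 1| := by
    rw [← abs_mul, ← abs_mul]
    exact abs_add_le _ _
  have a1 : |A 1 0 * y 0 + A 1 1 * y 1| ≤ |A 1 0| * |y 0| + |A 1 1| * |y 1| := by
    rw [← abs_mul, ← abs_mul]
    exact abs_add_le _ _
  have b0 := mul_le_mul_of_nonneg_left a0 (hw 0).le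
  have b1 := mul_le_mul_of_nonneg_left a1 (hw 1).le
  have c0 := mul_le_mul_of_nonneg_right (h 0) (abs_nonneg (y 0))
  have c1 := mul_le_mul_of_nonneg_right (h 1) (abs_nonneg (y 1))
  nlinarith

/-- a switched vector: its image is primitive, switched, and not shorter -/
theorem step_sw {p : ℕ} (hp : p.Prime) {v w : Fin 2 → ℤ} (hv : ∀ i, 0 < v i) {N : Set Mat}
    (hN : ∀ A ∈ N, PrimeOK p v w A) (hNN : ∀ A ∈ N, ∀ B ∈ N, ¬ PDM p (B * A)) {A : Mat}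
    (hA : A ∈ N) (hdet : A.det ≠ 0) {y : Vec} (hy : gc y = 1) (hs : Sw p N y) :
    Sw p N (prim (A.mulVec y)) ∧ nrm (swp v) y ≤ nrm (swp v) (prim (A.mulVec y)) := by
  obtain ⟨⟨k, hk1, hk⟩, hrow, _⟩ := hN A hA
  have hpA : (p : ℤ) ∣ A.det := by
    rw [← dvd_abs, hk]
    exact dvd_pow_self _ (by omega)
  have hg1 : gc (A.mulVec y) = 1 := by
    have h1 := gc_mulVec_dvd (A := A) hy
    rw [← dvd_abs, hk] at h1
    have h2 : (gc (A.mulVec y)).natAbs ∣ p ^ k := by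
      have := Int.natAbs_dvd_natAbs.2 h1
      rwa [Int.natAbs_pow, Int.natAbs_natCast] at this
    obtain ⟨j, _, hj⟩ := (Nat.dvd_prime_pow hp).1 h2
    have h3 : gc (A.mulVec y) = (p : ℤ) ^ j := by
      have h4 : ((gc (A.mulVec y)).natAbs : ℤ) = gc (A.mulVec y) :=
        Int.natAbs_of_nonneg (gc_nonneg _)
      rw [← h4, hj]
      push_cast
      rfl
    rcases Nat.eq_zero_or_pos j with h0 | h0
    · rw [h3, h0, pow_zero]
    · exfalso
      apply hs A hA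
      have h5 : (p : ℤ) ∣ gc (A.mulVec y) := by
        rw [h3]
        exact dvd_pow_self _ (by omega)
      exact ⟨h5.trans (gc_dvd _ 0), h5.trans (gc_dvd _ 1)⟩
  have hprim : prim (A.mulVec y) = A.mulVec y := by
    funext i
    unfold prim
    rw [hg1, Int.ediv_one]
  rw [hprim]
  constructor
  · intro B hB hPD
    exact hNN A hA B hB (pd_mul hp hpA (hs A hA) hPD)
  · have hw' := swp_pos hv
    have h1 := adj_nrm_le (w' := swp v) (D := |A.det|) (A := A)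
      (by rw [swp0, swp1]; have := hrow 1; linarith)
      (by rw [swp0, swp1]; have := hrow 0; linarith) hw' (A.mulVec y)
    rw [adj_mulVec, nrm_smul] at h1
    exact le_of_mul_le_mul_left h1 (abs_pos.2 hdet)

/-- if the image is not switched, the full determinant was cancelled and the norm did not
increase -/
theorem step_unsw {p : ℕ} (hp : p.Prime) {v w : Fin 2 → ℤ} (hv : ∀ i, 0 < v i)
    (hw : ∀ i, 0 < w i) {N : Set Mat}
    (hN : ∀ A ∈ N, PrimeOK p v w A) (hNN : ∀ A ∈ N, ∀ B ∈ N, ¬ PDM p (B * A)) {A : Mat}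
    (hA : A ∈ N) (hdet : A.det ≠ 0) {y : Vec} (hy : gc y = 1) (hy0 : y ≠ 0)
    (hs : ¬ Sw p N (prim (A.mulVec y))) :
    ¬ Sw p N y ∧ nrm w (prim (A.mulVec y)) ≤ nrm w y := by
  refine ⟨fun h => hs (step_sw hp hv hN hNN hA hdet hy h).1, ?_⟩
  obtain ⟨⟨k, hk1, hk⟩, _, hcol⟩ := hN A hA
  have hpA : (p : ℤ) ∣ A.det := by
    rw [← dvd_abs, hk]
    exact dvd_pow_self _ (by omega)
  have hz : A.mulVec y ≠ 0 := mulVec_ne_zero hdet hy0
  have hg := gc_pos hz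
  have hgd := gc_mulVec_dvd (A := A) hy
  have hgc1 : gc (prim (A.mulVec y)) = 1 := gc_prim hz
  -- the content is the full determinant
  have hfull : gc (A.mulVec y) = |A.det| := by
    by_contra hne
    apply hs
    intro B hB hPD
    have hadj : A.det • y = gc (A.mulVec y) • A.adjugate.mulVec (prim (A.mulVec y)) := by
      rw [← adj_mulVec, ← Matrix.mulVec_smul, ← eq_smul_prim]
    obtain ⟨q, hq⟩ := hgd
    have hadj2 : A.adjugate.mulVec (prim (A.mulVec y)) = q • y := by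
      have h1 : gc (A.mulVec y) • A.adjugate.mulVec (prim (A.mulVec y))
          = gc (A.mulVec y) • (q • y) := by
        rw [← hadj]
        conv_lhs => rw [hq]
        rw [mul_smul]
      exact smul_right_injective _ hg.ne' h1
    have hpq : (p : ℤ) ∣ q := by
      have h1 : q.natAbs ∣ p ^ k := by
        have h2 : q ∣ |A.det| := by
          rw [dvd_abs]
          exact ⟨gc (A.mulVec y), by rw [mul_comm]; exact hq⟩
        rw [hk] at h2
        have := Int.natAbs_dvd_natAbs.2 h2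
        rwa [Int.natAbs_pow, Int.natAbs_natCast] at this
      obtain ⟨j, _, hj⟩ := (Nat.dvd_prime_pow hp).1 h1
      rcases Nat.eq_zero_or_pos j with h0 | h0
      · exfalso
        apply hne
        rw [h0, pow_zero] at hj
        rw [hq, abs_mul, abs_of_pos hg]
        have : |q| = 1 := by
          rw [Int.abs_eq_natAbs, hj]
          rfl
        rw [this, mul_one]
      · rw [← Int.dvd_natAbs, hj]
        push_cast
        exact dvd_pow_self _ (by omega)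
    apply hNN A hA B hB
    apply pd_adj hp _ hPD (not_PD_of_gc hp hgc1)
    rw [hadj2]
    exact ⟨hpq.mul_right _, hpq.mul_right _⟩
  have h1 := mul_nrm_le (D := |A.det|) hcol hw y
  rw [nrm_eq_gc_mul w (A.mulVec y), hfull] at h1
  exact le_of_mul_le_mul_left h1 (abs_pos.2 hdet)

theorem path_sw {p : ℕ} (hp : p.Prime) {v w : Fin 2 → ℤ} (hv : ∀ i, 0 < v i) {N : Set Mat}
    (hN : ∀ A ∈ N, PrimeOK p v w A) (hNN : ∀ A ∈ N, ∀ B ∈ N, ¬ PDM p (B * A)) {L : List Mat}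
    (hL : ∀ A ∈ L, A ∈ N ∧ A.det ≠ 0) {y : Vec} (hy : gc y = 1) (hy0 : y ≠ 0)
    (hs : Sw p N y) : Sw p N (YY L y) ∧ nrm (swp v) y ≤ nrm (swp v) (YY L y) := by
  induction L with
  | nil =>
    have hp : prim y = y := by
      funext i
      unfold prim
      rw [hy, Int.ediv_one]
    rw [YY_nil, hp]
    exact ⟨hs, le_rfl⟩
  | cons A L ih =>
    have hL' : ∀ A ∈ L, A ∈ N ∧ A.det ≠ 0 := fun B hB => hL B (by simp [hB])
    have hLd : ∀ A ∈ L, A.det ≠ 0 := fun B hB => (hL' B hB).2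
    obtain ⟨h1, h2⟩ := ih hL'
    rw [YY_cons A L y hLd hy0]
    obtain ⟨h3, h4⟩ := step_sw hp hv hN hNN (hL A (by simp)).1 (hL A (by simp)).2
      (gc_YY hLd hy0) h1
    exact ⟨h3, h2.trans h4⟩

theorem path_unsw {p : ℕ} (hp : p.Prime) {v w : Fin 2 → ℤ} (hv : ∀ i, 0 < v i)
    (hw : ∀ i, 0 < w i) {N : Set Mat}
    (hN : ∀ A ∈ N, PrimeOK p v w A) (hNN : ∀ A ∈ N, ∀ B ∈ N, ¬ PDM p (B * A)) {L : List Mat}
    (hL : ∀ A ∈ L, A ∈ N ∧ A.det ≠ 0) {u : Vec} (hu : u ≠ 0)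
    (hs : ¬ Sw p N (YY L u)) : nrm w (YY L u) ≤ nrm w (prim u) := by
  induction L with
  | nil => rw [YY_nil]
  | cons A L ih =>
    have hL' : ∀ A ∈ L, A ∈ N ∧ A.det ≠ 0 := fun B hB => hL B (by simp [hB])
    have hLd : ∀ A ∈ L, A.det ≠ 0 := fun B hB => (hL' B hB).2
    rw [YY_cons A L u hLd hu] at hs ⊢
    obtain ⟨h3, h4⟩ := step_unsw hp hv hw hN hNN (hL A (by simp)).1 (hL A (by simp)).2
      (gc_YY hLd hu) (YY_ne_zero hLd hu) hs
    exact h4.trans (ih hL' h3)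

theorem mortal_prime (F : Set Mat) (p : ℕ) (hp : p.Prime) (v w : Fin 2 → ℤ)
    (hv : ∀ i, 0 < v i) (hw : ∀ i, 0 < w i)
    (H R : ℕ) (hR1 : (v 0 + v 1) * H ≤ R) (hR2 : (w 0 + w 1) * H ≤ R)
    (hS : ∀ A ∈ F, A.det = 0 → ∀ i j, |A i j| ≤ (H : ℤ))
    (hN : ∀ A ∈ F, A.det ≠ 0 → PrimeOK p v w A)
    (hNN : ∀ A ∈ F, A.det ≠ 0 → ∀ B ∈ F, B.det ≠ 0 → ¬ PDM p (B * A)) (hM : Mortal F) :
    MortalWithin F ((2 * R + 1) ^ 2 + 1) := by
  apply core F ((2 * R + 1) ^ 2) _ hM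
  intro A hA B hB hAd hBd L hLF hLd hA0 hprod j hj
  refine ⟨box (R : ℤ), by rw [box_card], ?_⟩
  intro L1 L2 hL
  set u : Vec := fun i => B i j with hu
  set N : Set Mat := {X | X ∈ F ∧ X.det ≠ 0} with hNdef
  have hN' : ∀ X ∈ N, PrimeOK p v w X := fun X hX => hN X hX.1 hX.2
  have hNN' : ∀ X ∈ N, ∀ Y ∈ N, ¬ PDM p (Y * X) := fun X hX Y hY =>
    hNN X hX.1 hX.2 Y hY.1 hY.2
  have hok : ∀ X ∈ L, X ∈ N ∧ X.det ≠ 0 := fun X hX => ⟨⟨hLF X hX, hLd X hX⟩, hLd X hX⟩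
  have hok1 : ∀ X ∈ L1, X ∈ N ∧ X.det ≠ 0 := fun X hX => hok X (by rw [hL]; simp [hX])
  have hok2 : ∀ X ∈ L2, X ∈ N ∧ X.det ≠ 0 := fun X hX => hok X (by rw [hL]; simp [hX])
  have hd1 : ∀ X ∈ L1, X.det ≠ 0 := fun X hX => (hok1 X hX).2
  have hd2 : ∀ X ∈ L2, X.det ≠ 0 := fun X hX => (hok2 X hX).2
  by_cases hC : Sw p N (YY L2 u)
  · have h1 := (path_sw hp hv hN' hNN' hok1 (gc_YY hd2 hj) (YY_ne_zero hd2 hj) hC).2
    rw [← YY_append L1 L2 u hd1 hd2 hj, ← hL] at h1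
    have hker : A.mulVec (YY L u) = 0 := by
      have e1 : A.mulVec (L.prod.mulVec u) = 0 := by
        rw [Matrix.mulVec_mulVec]
        funext r
        have := congrFun (congrFun hprod r) j
        simpa [Matrix.mul_apply, Matrix.mulVec, dotProduct, Fin.sum_univ_two, hu] using this
      rw [eq_smul_prim (L.prod.mulVec u), Matrix.mulVec_smul] at e1
      exact (smul_eq_zero.1 e1).resolve_left
        (gc_pos (mulVec_ne_zero (list_det_ne_zero hLd) hj)).ne'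
    have hw' := swp_pos hv
    have h2 := nrm_kernel hw' hA0 (hS A hA hAd) (gc_YY hLd hj) hker
    rw [swp0, swp1] at h2
    exact mem_box_of_nrm hw' ((h1.trans h2).trans (by linarith))
  · have h1 := path_unsw hp hv hw hN' hNN' hok2 hj hC
    have h2 := nrm_prim_le hw hj
    have h3 : nrm w u ≤ (w 0 + w 1) * H := by
      unfold nrm
      have b0 : |u 0| ≤ (H : ℤ) := hS B hB hBd 0 j
      have b1 : |u 1| ≤ (H : ℤ) := hS B hB hBd 1 j
      have := hw 0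
      have := hw 1
      nlinarith
    exact mem_box_of_nrm hw (((h1.trans h2).trans h3).trans hR2)

end Pool.Agent.MP_571595_lc.H12
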