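import Mathlib
import Pool.Agent.Lib.MP_571595_lc.H12.Norm

set_option autoImplicit false

namespace Pool.Agent.MP_571595_lc.H12

open Matrix

/-- upper triangular, the upper left entry is larger than the lower right one -/
def TriOK (A : Mat) : Prop := A 1 0 = 0 ∧ |A 1 1| < |A 0 0|

theorem tri_prod {L : List Mat} (hL : ∀ A ∈ L, A 1 0 = 0) : L.prod 1 0 = 0 := by
  induction L with
  | nil => simp
  | cons A L ih =>
    rw [List.prod_cons, Matrix.mul_apply, Fin.sum_univ_two, hL A (by simp),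
      ih fun B hB => hL B (by simp [hB])]
    ring

theorem tri_prod_cons00 {A : Mat} {L : List Mat} (hL : ∀ A ∈ L, A 1 0 = 0) :
    (A :: L).prod 0 0 = A 0 0 * L.prod 0 0 := by
  rw [List.prod_cons, Matrix.mul_apply, Fin.sum_univ_two, tri_prod hL]
  ring

theorem tri_prod_cons11 {A : Mat} {L : List Mat} (hA : A 1 0 = 0) :
    (A :: L).prod 1 1 = A 1 1 * L.prod 1 1 := by
  rw [List.prod_cons, Matrix.mul_apply, Fin.sum_univ_two, hA]
  ring

theorem tri_coprime_one {B : Mat} {L : List Mat} (hL : ∀ A ∈ L, A 1 0 = 0)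
    (h : ∀ A ∈ L, IsCoprime (A 0 0) (B 1 1)) : IsCoprime (L.prod 0 0) (B 1 1) := by
  induction L with
  | nil => simp [isCoprime_one_left]
  | cons A L ih =>
    rw [tri_prod_cons00 fun X hX => hL X (by simp [hX])]
    exact IsCoprime.mul_left (h A (by simp))
      (ih (fun X hX => hL X (by simp [hX])) fun X hX => h X (by simp [hX]))

theorem tri_coprime {L1 L2 : List Mat} (h1 : ∀ A ∈ L1, A 1 0 = 0) (h2 : ∀ A ∈ L2, A 1 0 = 0)
    (h : ∀ A ∈ L1, ∀ B ∈ L2, IsCoprime (A 0 0) (B 1 1)) :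
    IsCoprime (L1.prod 0 0) (L2.prod 1 1) := by
  induction L2 with
  | nil => simp [isCoprime_one_right]
  | cons B L2 ih =>
    rw [tri_prod_cons11 (h2 B (by simp))]
    exact IsCoprime.mul_right (tri_coprime_one h1 fun A hA => h A hA B (by simp))
      (ih (fun X hX => h2 X (by simp [hX])) fun A hA X hX => h A hA X (by simp [hX]))

/-- far from the finite fixed points, the ratio does not decrease -/
theorem step_ratio {H : ℤ} {A : Mat} (hA : TriOK A) (hb : |A 0 1| ≤ H) (hd : A 1 1 ≠ 0)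
    {y : Vec} (hy0 : A.mulVec y ≠ 0) (hS : H * |y 1| ≤ |y 0|) :
    H * |prim (A.mulVec y) 1| ≤ |prim (A.mulVec y) 0| ∧
      |y 0| * |prim (A.mulVec y) 1| ≤ |prim (A.mulVec y) 0| * |y 1| ∧
      (y 1 ≠ 0 → prim (A.mulVec y) 1 ≠ 0) := by
  obtain ⟨h10, had⟩ := hA
  have hg := gc_pos hy0
  have e0 := gc_mul_prim (A.mulVec y) 0
  have e1 := gc_mul_prim (A.mulVec y) 1
  rw [mv0] at e0
  rw [mv1, h10, zero_mul, zero_add] at e1
  set g := gc (A.mulVec y)
  set z := prim (A.mulVec y)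
  have a1 : g * |z 1| = |A 1 1| * |y 1| := by
    rw [← abs_of_pos hg, ← abs_mul, e1, abs_mul]
  have a0 : |A 1 1| * |y 0| ≤ g * |z 0| := by
    have h1 : g * |z 0| = |A 0 0 * y 0 + A 0 1 * y 1| := by
      rw [← abs_of_pos hg, ← abs_mul, e0]
    rw [h1]
    have h2 : |A 0 0| * |y 0| - |A 0 1| * |y 1| ≤ |A 0 0 * y 0 + A 0 1 * y 1| := by
      rw [← abs_mul, ← abs_mul]
      have := abs_sub_abs_le_abs_sub (A 0 0 * y 0) (-(A 0 1 * y 1))
      rw [abs_neg, sub_neg_eq_add] at this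
      exact this
    have h3 : |A 0 1| * |y 1| ≤ H * |y 1| := mul_le_mul_of_nonneg_right hb (abs_nonneg _)
    have h4 : |A 1 1| + 1 ≤ |A 0 0| := had
    have h5 := mul_le_mul_of_nonneg_right h4 (abs_nonneg (y 0))
    nlinarith
  refine ⟨?_, ?_, ?_⟩
  · have h1 : g * (H * |z 1|) ≤ g * |z 0| := by
      have h2 : g * (H * |z 1|) = |A 1 1| * (H * |y 1|) := by
        linear_combination H * a1
      rw [h2]
      exact (mul_le_mul_of_nonneg_left hS (abs_nonneg _)).trans a0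
    exact le_of_mul_le_mul_left h1 hg
  · have h1 : g * (|y 0| * |z 1|) ≤ g * (|z 0| * |y 1|) := by
      have h2 : g * (|y 0| * |z 1|) = (|A 1 1| * |y 0|) * |y 1| := by
        linear_combination |y 0| * a1
      rw [h2]
      have h3 := mul_le_mul_of_nonneg_right a0 (abs_nonneg (y 1))
      linarith
    exact le_of_mul_le_mul_left h1 hg
  · intro hy1 hz1
    rw [hz1, mul_zero] at e1
    rcases mul_eq_zero.1 e1.symm with h | h
    · exact hd h
    · exact hy1 h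

theorem path_ratio {H : ℤ} {L : List Mat}
    (hL : ∀ A ∈ L, TriOK A ∧ |A 0 1| ≤ H ∧ A 1 1 ≠ 0 ∧ A.det ≠ 0) {y : Vec} (hy : gc y = 1)
    (hy0 : y ≠ 0) (hy1 : y 1 ≠ 0) (hS : H * |y 1| ≤ |y 0|) :
    H * |YY L y 1| ≤ |YY L y 0| ∧ |y 0| * |YY L y 1| ≤ |YY L y 0| * |y 1| ∧ YY L y 1 ≠ 0 := by
  induction L with
  | nil =>
    have hp : prim y = y := by
      funext i
      unfold prim
      rw [hy, Int.ediv_one]
    rw [YY_nil, hp]
    exact ⟨hS, le_rfl, hy1⟩
  | cons A L ih =>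
    have hL' : ∀ A ∈ L, TriOK A ∧ |A 0 1| ≤ H ∧ A 1 1 ≠ 0 ∧ A.det ≠ 0 :=
      fun B hB => hL B (by simp [hB])
    have hLd : ∀ A ∈ L, A.det ≠ 0 := fun B hB => (hL' B hB).2.2.2
    obtain ⟨h1, h2, h3⟩ := ih hL'
    obtain ⟨q1, q2, q3, q4⟩ := hL A (by simp)
    rw [YY_cons A L y hLd hy0]
    obtain ⟨h4, h5, h6⟩ := step_ratio q1 q2 q3
      (mulVec_ne_zero q4 (YY_ne_zero hLd hy0)) h1
    refine ⟨h4, ?_, h6 h3⟩
    set z := YY L y
    set z' := prim (A.mulVec z)
    have hz : 0 < |z 1| := abs_pos.2 h3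
    have t1 := mul_le_mul_of_nonneg_right h2 (abs_nonneg (z' 1))
    have t2 := mul_le_mul_of_nonneg_right h5 (abs_nonneg (y 1))
    have t3 : |z 1| * (|y 0| * |z' 1|) ≤ |z 1| * (|z' 0| * |y 1|) := by
      nlinarith
    exact le_of_mul_le_mul_left t3 hz

theorem mortal_tri (F : Set Mat) (H : ℕ)
    (hS : ∀ A ∈ F, ∀ i j, |A i j| ≤ (H : ℤ))
    (hN : ∀ A ∈ F, A.det ≠ 0 → TriOK A)
    (hNN : ∀ A ∈ F, A.det ≠ 0 → ∀ B ∈ F, B.det ≠ 0 → IsCoprime (A 0 0) (B 1 1))
    (hM : Mortal F) : MortalWithin F ((2 * H ^ 3 + 1) ^ 2 + 1) := by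
  apply core F ((2 * H ^ 3 + 1) ^ 2) _ hM
  intro A hA B hB hAd hBd L hLF hLd hA0 hprod j hj
  refine ⟨box ((H ^ 3 : ℕ) : ℤ), by rw [box_card], ?_⟩
  intro L1 L2 hL
  set u : Vec := fun i => B i j with hu
  have hH1 : (1 : ℤ) ≤ H := by
    by_contra hc
    push Not at hc
    apply hA0
    ext i k
    have := hS A hA i k
    have h2 := abs_nonneg (A i k)
    have h3 : |A i k| = 0 := by omega
    simpa using h3
  have hok : ∀ X ∈ L, TriOK X ∧ |X 0 1| ≤ (H : ℤ) ∧ X 1 1 ≠ 0 ∧ X.det ≠ 0 := by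
    intro X hX
    have h1 := hN X (hLF X hX) (hLd X hX)
    refine ⟨h1, hS X (hLF X hX) 0 1, ?_, hLd X hX⟩
    intro h0
    apply hLd X hX
    rw [Matrix.det_fin_two, h0, h1.1]
    ring
  have hin1 : ∀ X ∈ L1, X ∈ L := fun X hX => by rw [hL]; simp [hX]
  have hin2 : ∀ X ∈ L2, X ∈ L := fun X hX => by rw [hL]; simp [hX]
  have hd1 : ∀ X ∈ L1, X.det ≠ 0 := fun X hX => hLd X (hin1 X hX)
  have hd2 : ∀ X ∈ L2, X.det ≠ 0 := fun X hX => hLd X (hin2 X hX)
  have ht1 : ∀ X ∈ L1, X 1 0 = 0 := fun X hX => (hok X (hin1 X hX)).1.1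
  have ht2 : ∀ X ∈ L2, X 1 0 = 0 := fun X hX => (hok X (hin2 X hX)).1.1
  set y := YY L2 u with hy
  set z := YY L u with hz
  have hzy : z = YY L1 y := by rw [hz, hL, YY_append L1 L2 u hd1 hd2 hj]
  have hy1 : gc y = 1 := gc_YY hd2 hj
  have hy0 : y ≠ 0 := YY_ne_zero hd2 hj
  have hker : A.mulVec z = 0 := by
    have e1 : A.mulVec (L.prod.mulVec u) = 0 := by
      rw [Matrix.mulVec_mulVec]
      funext r
      have := congrFun (congrFun hprod r) j
      simpa [Matrix.mul_apply, Matrix.mulVec, dotProduct, Fin.sum_univ_two, hu] using this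
    rw [eq_smul_prim (L.prod.mulVec u), Matrix.mulVec_smul] at e1
    exact (smul_eq_zero.1 e1).resolve_left
      (gc_pos (mulVec_ne_zero (list_det_ne_zero hLd) hj)).ne'
  obtain ⟨hz0, hz1⟩ := kernel_coord hA0 (hS A hA) (gc_YY hLd hj) hker
  have hu1 : |u 1| ≤ (H : ℤ) := hS B hB 1 j
  -- second coordinates
  have eD : gc (L2.prod.mulVec u) * y 1 = L2.prod 1 1 * u 1 := by
    have := gc_mul_prim (L2.prod.mulVec u) 1
    rw [mv1, tri_prod ht2, zero_mul, zero_add] at this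
    exact this
  have hP2 : L2.prod.mulVec u ≠ 0 := mulVec_ne_zero (list_det_ne_zero hd2) hj
  have hP1 : L1.prod.mulVec y ≠ 0 := mulVec_ne_zero (list_det_ne_zero hd1) hy0
  have eD' : gc (L1.prod.mulVec y) * z 1 = L1.prod 1 1 * y 1 := by
    have := gc_mul_prim (L1.prod.mulVec y) 1
    rw [mv1, tri_prod ht1, zero_mul, zero_add] at this
    rw [hzy]
    exact this
  -- if the second coordinate vanishes
  by_cases hy10 : y 1 = 0
  · rw [mem_box]
    have h1 : |y 0| = 1 := by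
      have h2 : gc y = |y 0| := by
        unfold gc
        rw [hy10, Int.gcd_zero_right]
        exact Int.natCast_natAbs _
      rw [← h2, hy1]
    have h3 : (1 : ℤ) ≤ ((H ^ 3 : ℕ) : ℤ) := by
      have : 1 ≤ H := by exact_mod_cast hH1
      exact_mod_cast Nat.one_le_pow _ _ this
    intro i
    fin_cases i
    · simp only [Fin.zero_eta, Fin.isValue]
      rw [h1]
      exact h3
    · simp only [Fin.mk_one, Fin.isValue]
      rw [hy10, abs_zero]
      linarith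
  -- nonvanishing second coordinates
  have hD1 : L1.prod 1 1 ≠ 0 := by
    intro h
    apply list_det_ne_zero hd1
    rw [Matrix.det_fin_two, h, tri_prod ht1]
    ring
  have hz1ne : z 1 ≠ 0 := by
    intro h
    rw [h, mul_zero] at eD'
    exact (mul_ne_zero hD1 hy10) eD'.symm
  have hu1ne : u 1 ≠ 0 := by
    intro h
    rw [h, mul_zero] at eD
    exact (mul_ne_zero (gc_pos hP2).ne' hy10) eD
  -- divisibility
  have dv1 : y 1 ∣ L2.prod 1 1 * u 1 := ⟨gc (L2.prod.mulVec u), by rw [← eD]; ring⟩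
  have dv2 : y 1 ∣ L1.prod 0 0 * z 1 := by
    obtain ⟨q, hq⟩ := gc_mulVec_dvd (A := L1.prod) hy1
    have h1 : L1.prod.det = L1.prod 0 0 * L1.prod 1 1 := by
      rw [Matrix.det_fin_two, tri_prod ht1]
      ring
    refine ⟨q, ?_⟩
    have h2 : gc (L1.prod.mulVec y) * (L1.prod 0 0 * z 1) =
        gc (L1.prod.mulVec y) * (y 1 * q) := by
      rw [h1] at hq
      linear_combination (L1.prod 0 0) * eD' + (y 1) * hq
    exact mul_left_cancel₀ (gc_pos hP1).ne' h2
  have hcop : IsCoprime (L1.prod 0 0) (L2.prod 1 1) :=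
    tri_coprime ht1 ht2 fun X hX Y hY =>
      hNN X (hLF X (hin1 X hX)) (hd1 X hX) Y (hLF Y (hin2 Y hY)) (hd2 Y hY)
  have dv : y 1 ∣ u 1 * z 1 := by
    obtain ⟨r, s, hrs⟩ := hcop
    obtain ⟨m, hm⟩ := dv1
    obtain ⟨n, hn⟩ := dv2
    exact ⟨s * m * z 1 + r * n * u 1, by
      linear_combination (-(u 1 * z 1)) * hrs + s * z 1 * hm + r * u 1 * hn⟩
  have by1 : |y 1| ≤ (H : ℤ) ^ 2 := by
    have h1 : |y 1| ≤ |u 1 * z 1| :=
      Int.le_of_dvd (abs_pos.2 (mul_ne_zero hu1ne hz1ne)) ((abs_dvd_abs _ _).2 dv)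
    rw [abs_mul] at h1
    have h2 : |u 1| * |z 1| ≤ (H : ℤ) * H :=
      mul_le_mul hu1 hz1 (abs_nonneg _) (by positivity)
    rw [sq]
    exact h1.trans h2
  have by0 : |y 0| ≤ (H : ℤ) * |y 1| := by
    by_contra hc
    push Not at hc
    have h1 := path_ratio (H := (H : ℤ)) (L := L1)
      (fun X hX => hok X (hin1 X hX)) hy1 hy0 hy10 hc.le
    rw [← hzy] at h1
    have h2 := h1.2.1
    have h3 : (1 : ℤ) ≤ |z 1| := Int.one_le_abs hz1ne
    have h4 : |z 0| * |y 1| ≤ H * |y 1| := mul_le_mul_of_nonneg_right hz0 (abs_nonneg _)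
    have h5 : |y 0| * 1 ≤ |y 0| * |z 1| := mul_le_mul_of_nonneg_left h3 (abs_nonneg _)
    linarith
  rw [mem_box]
  have hH0 : (0 : ℤ) ≤ H := by linarith
  have hcube : (((H ^ 3 : ℕ) : ℤ)) = (H : ℤ) * (H : ℤ) ^ 2 := by push_cast; ring
  intro i
  fin_cases i
  · simp only [Fin.zero_eta, Fin.isValue]
    rw [hcube]
    exact by0.trans (mul_le_mul_of_nonneg_left by1 hH0)
  · simp only [Fin.mk_one, Fin.isValue]
    rw [hcube]
    have : (H : ℤ) ^ 2 ≤ H * (H : ℤ) ^ 2 := le_mul_of_one_le_left (by positivity) hH1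
    exact by1.trans this

/-! ### duality -/

/-- `J Aᵀ J` with `J` the swap of coordinates -/
def flip2 (A : Mat) : Mat := !![A 1 1, A 0 1; A 1 0, A 0 0]

theorem flip2_mul (A B : Mat) : flip2 (A * B) = flip2 B * flip2 A := by
  ext i j
  fin_cases i <;> fin_cases j <;>
    simp [flip2, Matrix.mul_apply, Fin.sum_univ_two] <;> ring

theorem flip2_flip2 (A : Mat) : flip2 (flip2 A) = A := by
  ext i j
  fin_cases i <;> fin_cases j <;> simp [flip2]

theorem flip2_det (A : Mat) : (flip2 A).det = A.det := by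
  simp only [Matrix.det_fin_two, flip2, Matrix.of_apply, Matrix.cons_val', Matrix.cons_val_zero,
    Matrix.cons_val_one, Matrix.cons_val_fin_one]
  ring

theorem flip2_one : flip2 1 = 1 := by
  ext i j
  fin_cases i <;> fin_cases j <;> simp [flip2]

theorem flip2_prod (L : List Mat) : (L.map flip2).reverse.prod = flip2 L.prod := by
  induction L with
  | nil => simp [flip2_one]
  | cons A L ih =>
    rw [List.map_cons, List.reverse_cons, List.prod_append, ih, List.prod_singleton,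
      List.prod_cons, flip2_mul]

theorem flip2_zero : flip2 0 = 0 := by
  ext i j
  fin_cases i <;> fin_cases j <;> simp [flip2]

theorem mortal_flip {F : Set Mat} (h : Mortal F) : Mortal (flip2 '' F) := by
  obtain ⟨w, h1, h2, h3⟩ := h
  refine ⟨(w.map flip2).reverse, by simpa using h1, ?_, by rw [flip2_prod, h3, flip2_zero]⟩
  intro A hA
  rw [List.mem_reverse, List.mem_map] at hA
  obtain ⟨B, hB, rfl⟩ := hA
  exact ⟨B, h2 B hB, rfl⟩

theorem mortalWithin_flip {F : Set Mat} {n : ℕ} (h : MortalWithin (flip2 '' F) n) :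
    MortalWithin F n := by
  obtain ⟨w, h1, h2, h3, h4⟩ := h
  refine ⟨(w.map flip2).reverse, by simpa using h1, ?_, by rw [flip2_prod, h3, flip2_zero],
    by simpa using h4⟩
  intro A hA
  rw [List.mem_reverse, List.mem_map] at hA
  obtain ⟨B, hB, rfl⟩ := hA
  obtain ⟨C, hC, rfl⟩ := h2 B hB
  rw [flip2_flip2]
  exact hC

/-- both directions -/
theorem mortal_tri_both (F : Set Mat) (H : ℕ)
    (hS : ∀ A ∈ F, ∀ i j, |A i j| ≤ (H : ℤ))
    (hN : ∀ A ∈ F, A.det ≠ 0 → A 1 0 = 0)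
    (hd : (∀ A ∈ F, A.det ≠ 0 → |A 1 1| < |A 0 0|) ∨ (∀ A ∈ F, A.det ≠ 0 → |A 0 0| < |A 1 1|))
    (hNN : ∀ A ∈ F, A.det ≠ 0 → ∀ B ∈ F, B.det ≠ 0 → IsCoprime (A 0 0) (B 1 1))
    (hM : Mortal F) : MortalWithin F ((2 * H ^ 3 + 1) ^ 2 + 1) := by
  rcases hd with hd | hd
  · exact mortal_tri F H hS (fun A hA h => ⟨hN A hA h, hd A hA h⟩) hNN hM
  · apply mortalWithin_flip
    apply mortal_tri (flip2 '' F) H
    · rintro A ⟨B, hB, rfl⟩ i j
      fin_cases i <;> fin_cases j <;> simp only [flip2, Fin.zero_eta, Fin.mk_one, Fin.isValue,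
        Matrix.of_apply, Matrix.cons_val', Matrix.cons_val_zero, Matrix.cons_val_one,
        Matrix.cons_val_fin_one]
      · exact hS B hB 1 1
      · exact hS B hB 0 1
      · exact hS B hB 1 0
      · exact hS B hB 0 0
    · rintro A ⟨B, hB, rfl⟩ h
      rw [flip2_det] at h
      exact ⟨hN B hB h, hd B hB h⟩
    · rintro A ⟨B, hB, rfl⟩ h A' ⟨B', hB', rfl⟩ h'
      rw [flip2_det] at h h'
      exact (hNN B' hB' h' B hB h).symm
    · exact mortal_flip hM

end Pool.Agent.MP_571595_lc.H12
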