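import Mathlib
import Pool.Agent.Lib.MP_571595_lc.H12.Tri

set_option autoImplicit false

namespace Pool.Agent.MP_571595_lc.H12

open Matrix

/-- the gcd of the diagonal entries -/
def dg (A : Mat) : ℤ := (Int.gcd (A 0 0) (A 1 1) : ℤ)

/-- rescaling: conjugation by `diag (N, 1)`, made integral -/
noncomputable def resc (N : ℤ) (A : Mat) : Mat :=
  open Classical in
  if A.det = 0 then !![N * A 0 0, N ^ 2 * A 0 1; A 1 0, N * A 1 1]
  else !![A 0 0 / dg A, N * A 0 1 / dg A; 0, A 1 1 / dg A]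

theorem dg_pos {A : Mat} (h10 : A 1 0 = 0) (hd : A.det ≠ 0) : 0 < dg A := by
  unfold dg
  have : A 1 1 ≠ 0 := by
    intro h
    apply hd
    rw [Matrix.det_fin_two, h, h10]
    ring
  exact_mod_cast Int.gcd_pos_of_ne_zero_right _ this

theorem mulD0 (N : ℤ) (M : Mat) (i : Fin 2) : (M * !![N, 0; 0, 1]) i 0 = M i 0 * N := by
  rw [Matrix.mul_apply, Fin.sum_univ_two]
  simp

theorem mulD1 (N : ℤ) (M : Mat) (i : Fin 2) : (M * !![N, 0; 0, 1]) i 1 = M i 1 := by
  rw [Matrix.mul_apply, Fin.sum_univ_two]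
  simp

theorem Dmul0 (N : ℤ) (M : Mat) (j : Fin 2) : (!![N, 0; 0, 1] * M) 0 j = N * M 0 j := by
  rw [Matrix.mul_apply, Fin.sum_univ_two]
  simp

theorem Dmul1 (N : ℤ) (M : Mat) (j : Fin 2) : (!![N, 0; 0, 1] * M) 1 j = M 1 j := by
  rw [Matrix.mul_apply, Fin.sum_univ_two]
  simp

theorem resc_conj (N : ℤ) (hN : N ≠ 0) (A : Mat) (h10 : A.det ≠ 0 → A 1 0 = 0)
    (hdv : A.det ≠ 0 → dg A ∣ N * A 0 1) :
    ∃ α β : ℤ, α ≠ 0 ∧ β ≠ 0 ∧ α • (resc N A * !![N, 0; 0, 1]) = β • (!![N, 0; 0, 1] * A) := by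
  by_cases hd : A.det = 0
  · refine ⟨1, N, one_ne_zero, hN, ?_⟩
    unfold resc
    rw [if_pos hd]
    ext i j
    rw [Matrix.smul_apply, Matrix.smul_apply]
    fin_cases i <;> fin_cases j <;>
      simp only [Fin.zero_eta, Fin.mk_one, Fin.isValue, mulD0, mulD1, Dmul0, Dmul1,
        Matrix.of_apply, Matrix.cons_val', Matrix.cons_val_zero, Matrix.cons_val_one,
        Matrix.cons_val_fin_one, smul_eq_mul] <;> ring
  · have hg := dg_pos (h10 hd) hd
    refine ⟨dg A, 1, hg.ne', one_ne_zero, ?_⟩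
    have e0 : dg A * (A 0 0 / dg A) = A 0 0 := Int.mul_ediv_cancel' (Int.gcd_dvd_left _ _)
    have e1 : dg A * (A 1 1 / dg A) = A 1 1 := Int.mul_ediv_cancel' (Int.gcd_dvd_right _ _)
    have e2 : dg A * (N * A 0 1 / dg A) = N * A 0 1 := Int.mul_ediv_cancel' (hdv hd)
    have e3 := h10 hd
    unfold resc
    rw [if_neg hd]
    ext i j
    rw [Matrix.smul_apply, Matrix.smul_apply]
    fin_cases i <;> fin_cases j <;>
      simp only [Fin.zero_eta, Fin.mk_one, Fin.isValue, mulD0, mulD1, Dmul0, Dmul1,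
        Matrix.of_apply, Matrix.cons_val', Matrix.cons_val_zero, Matrix.cons_val_one,
        Matrix.cons_val_fin_one, smul_eq_mul]
    · linear_combination N * e0
    · linear_combination e2
    · rw [e3]
      ring
    · linear_combination e1

theorem resc_prod (N : ℤ) (hN : N ≠ 0) (L : List Mat) (h10 : ∀ A ∈ L, A.det ≠ 0 → A 1 0 = 0)
    (hdv : ∀ A ∈ L, A.det ≠ 0 → dg A ∣ N * A 0 1) :
    ∃ α β : ℤ, α ≠ 0 ∧ β ≠ 0 ∧
      α • ((L.map (resc N)).prod * !![N, 0; 0, 1]) = β • (!![N, 0; 0, 1] * L.prod) := by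
  induction L with
  | nil => exact ⟨1, 1, one_ne_zero, one_ne_zero, by simp⟩
  | cons A L ih =>
    obtain ⟨α, β, hα, hβ, h⟩ := ih (fun B hB => h10 B (by simp [hB]))
      (fun B hB => hdv B (by simp [hB]))
    obtain ⟨α', β', hα', hβ', h'⟩ := resc_conj N hN A (h10 A (by simp)) (hdv A (by simp))
    refine ⟨α' * α, β' * β, mul_ne_zero hα' hα, mul_ne_zero hβ' hβ, ?_⟩
    rw [List.map_cons, List.prod_cons, List.prod_cons, mul_assoc (resc N A)]
    calc (α' * α) • (resc N A * ((L.map (resc N)).prod * !![N, 0; 0, 1]))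
        = α' • (resc N A * (α • ((L.map (resc N)).prod * !![N, 0; 0, 1]))) := by
          rw [Matrix.mul_smul, smul_smul]
      _ = α' • (resc N A * (β • (!![N, 0; 0, 1] * L.prod))) := by rw [h]
      _ = β • ((α' • (resc N A * !![N, 0; 0, 1])) * L.prod) := by
          rw [Matrix.mul_smul, smul_comm, ← mul_assoc, Matrix.smul_mul]
      _ = β • ((β' • (!![N, 0; 0, 1] * A)) * L.prod) := by rw [h']
      _ = (β' * β) • (!![N, 0; 0, 1] * (A * L.prod)) := by
          rw [Matrix.smul_mul, smul_smul, mul_assoc, mul_comm β β']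

theorem det_diag (N : ℤ) (hN : N ≠ 0) : (!![N, 0; 0, 1] : Mat).det ≠ 0 := by
  rw [Matrix.det_fin_two]
  simpa using hN

theorem resc_zero_iff (N : ℤ) (hN : N ≠ 0) (L : List Mat)
    (h10 : ∀ A ∈ L, A.det ≠ 0 → A 1 0 = 0) (hdv : ∀ A ∈ L, A.det ≠ 0 → dg A ∣ N * A 0 1) :
    (L.map (resc N)).prod = 0 ↔ L.prod = 0 := by
  obtain ⟨α, β, hα, hβ, h⟩ := resc_prod N hN L h10 hdv
  constructor
  · intro h0
    rw [h0, zero_mul, smul_zero] at h
    have h1 := (smul_eq_zero.1 h.symm).resolve_left hβ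
    exact left_cancel (det_diag N hN) h1
  · intro h0
    rw [h0, mul_zero, smul_zero] at h
    have h1 := (smul_eq_zero.1 h).resolve_left hα
    exact right_cancel (det_diag N hN) h1

theorem exists_list_map {F : Set Mat} {f : Mat → Mat} {w : List Mat}
    (h : ∀ A ∈ w, A ∈ f '' F) : ∃ w' : List Mat, (∀ A ∈ w', A ∈ F) ∧ w'.map f = w := by
  induction w with
  | nil => exact ⟨[], by simp, rfl⟩
  | cons A w ih =>
    obtain ⟨w', h1, h2⟩ := ih fun B hB => h B (by simp [hB])
    obtain ⟨B, hB, hBA⟩ := h A (by simp)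
    refine ⟨B :: w', ?_, by rw [List.map_cons, h2, hBA]⟩
    intro X hX
    rcases List.mem_cons.1 hX with rfl | hX
    · exact hB
    · exact h1 X hX

theorem resc_det {N : ℤ} (hN : N ≠ 0) {A : Mat} (h10 : A.det ≠ 0 → A 1 0 = 0)
    (hdv : A.det ≠ 0 → dg A ∣ N * A 0 1) : (resc N A).det ≠ 0 ↔ A.det ≠ 0 := by
  obtain ⟨α, β, hα, hβ, h⟩ := resc_conj N hN A h10 hdv
  have h1 := congrArg Matrix.det h
  rw [Matrix.det_smul, Matrix.det_smul, Matrix.det_mul, Matrix.det_mul] at h1
  have h2 := det_diag N hN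
  simp only [Fintype.card_fin] at h1
  constructor
  · intro h3 h4
    rw [h4, mul_zero, mul_zero] at h1
    exact (mul_ne_zero (pow_ne_zero 2 hα) (mul_ne_zero h3 h2)) h1
  · intro h3 h4
    rw [h4, zero_mul, mul_zero] at h1
    exact (mul_ne_zero (pow_ne_zero 2 hβ) (mul_ne_zero h2 h3)) h1.symm

/-- valuations: a prime dividing `a / gcd a d` has `v_q(d) < v_q(a)` -/
theorem val_of_dvd {q : ℕ} (hq : q.Prime) {a d : ℤ} (ha : a ≠ 0) (hd : d ≠ 0)
    (h : (q : ℤ) ∣ a / (Int.gcd a d : ℤ)) : padicValInt q d < padicValInt q a := by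
  have : Fact q.Prime := ⟨hq⟩
  set g : ℤ := (Int.gcd a d : ℤ) with hg
  have hgpos : 0 < g := by
    rw [hg]
    exact_mod_cast Int.gcd_pos_of_ne_zero_left _ ha
  have ea : g * (a / g) = a := Int.mul_ediv_cancel' (Int.gcd_dvd_left _ _)
  have ed : g * (d / g) = d := Int.mul_ediv_cancel' (Int.gcd_dvd_right _ _)
  have ha' : a / g ≠ 0 := by
    intro h0
    rw [h0, mul_zero] at ea
    exact ha ea.symm
  have hd' : d / g ≠ 0 := by
    intro h0
    rw [h0, mul_zero] at ed
    exact hd ed.symm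
  have hcop : IsCoprime (a / g) (d / g) := by
    rw [Int.isCoprime_iff_gcd_eq_one]
    exact Int.gcd_ediv_gcd_ediv_gcd (Int.gcd_pos_of_ne_zero_left _ ha)
  have hnd : ¬ (q : ℤ) ∣ d / g := by
    intro h2
    have h3 := hcop.isUnit_of_dvd' h h2
    rw [Int.isUnit_iff] at h3
    have h4 := hq.one_lt
    rcases h3 with h3 | h3
    · omega
    · omega
  have va : padicValInt q a = padicValInt q g + padicValInt q (a / g) := by
    conv_lhs => rw [← ea]
    exact padicValInt.mul hgpos.ne' ha'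
  have vd : padicValInt q d = padicValInt q g + padicValInt q (d / g) := by
    conv_lhs => rw [← ed]
    exact padicValInt.mul hgpos.ne' hd'
  have v1 : padicValInt q (d / g) = 0 := padicValInt.eq_zero_of_not_dvd hnd
  have v2 : 1 ≤ padicValInt q (a / g) := by
    by_contra hc
    push Not at hc
    have h0 : padicValInt q (a / g) = 0 := by omega
    have h5 := (padicValInt_dvd_iff 1 (a / g)).1 (by simpa using h)
    rcases h5 with h5 | h5
    · exact ha' h5
    · omega
  omega

theorem mortal_tri_places (F : Set Mat) (H : ℕ)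
    (hS : ∀ A ∈ F, ∀ i j, |A i j| ≤ (H : ℤ))
    (hN : ∀ A ∈ F, A.det ≠ 0 → A 1 0 = 0)
    (hd : (∀ A ∈ F, A.det ≠ 0 → |A 1 1| < |A 0 0|) ∨ (∀ A ∈ F, A.det ≠ 0 → |A 0 0| < |A 1 1|))
    (hq : ∀ q : ℕ, q.Prime →
      (∀ A ∈ F, A.det ≠ 0 → padicValInt q (A 1 1) ≤ padicValInt q (A 0 0)) ∨
      (∀ A ∈ F, A.det ≠ 0 → padicValInt q (A 0 0) ≤ padicValInt q (A 1 1)))
    (hM : Mortal F) :
    MortalWithin F ((2 * (H.factorial ^ 2 * H) ^ 3 + 1) ^ 2 + 1) := by
  set N : ℤ := (H.factorial : ℤ) with hNdef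
  have hN0 : N ≠ 0 := by
    rw [hNdef]
    exact_mod_cast H.factorial_ne_zero
  have hN1 : (1 : ℤ) ≤ N := by
    rw [hNdef]
    exact_mod_cast Nat.one_le_iff_ne_zero.2 H.factorial_ne_zero
  have hentry : ∀ A ∈ F, A.det ≠ 0 → A 0 0 ≠ 0 ∧ A 1 1 ≠ 0 := by
    intro A hA hdet
    constructor
    · intro h
      apply hdet
      rw [Matrix.det_fin_two, h, hN A hA hdet]
      ring
    · intro h
      apply hdet
      rw [Matrix.det_fin_two, h, hN A hA hdet]
      ring
  have hdv : ∀ A ∈ F, A.det ≠ 0 → dg A ∣ N * A 0 1 := by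
    intro A hA hdet
    apply Dvd.dvd.mul_right
    unfold dg
    rw [hNdef]
    have h1 : 0 < Int.gcd (A 0 0) (A 1 1) := Int.gcd_pos_of_ne_zero_left _ (hentry A hA hdet).1
    have h2 : Int.gcd (A 0 0) (A 1 1) ≤ H := by
      have h3 : (Int.gcd (A 0 0) (A 1 1) : ℤ) ≤ |A 0 0| :=
        Int.le_of_dvd (abs_pos.2 (hentry A hA hdet).1) ((dvd_abs _ _).2 (Int.gcd_dvd_left _ _))
      have := h3.trans (hS A hA 0 0)
      exact_mod_cast this
    exact_mod_cast Nat.dvd_factorial h1 h2
  -- the rescaled set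
  have hmain : MortalWithin (resc N '' F) ((2 * (H.factorial ^ 2 * H) ^ 3 + 1) ^ 2 + 1) := by
    have hcop : ∀ A ∈ F, A.det ≠ 0 → ∀ B ∈ F, B.det ≠ 0 →
        IsCoprime (A 0 0 / dg A) (B 1 1 / dg B) := by
      intro A hA hA' B hB hB'
      obtain ⟨a0, a1⟩ := hentry A hA hA'
      obtain ⟨b0, b1⟩ := hentry B hB hB'
      rw [Int.isCoprime_iff_gcd_eq_one]
      by_contra hc
      obtain ⟨q, hqp, hqd⟩ := Nat.exists_prime_and_dvd hc
      have d1 : (q : ℤ) ∣ A 0 0 / dg A :=
        (Int.natCast_dvd_natCast.2 hqd).trans (Int.gcd_dvd_left _ _)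
      have d2 : (q : ℤ) ∣ B 1 1 / dg B :=
        (Int.natCast_dvd_natCast.2 hqd).trans (Int.gcd_dvd_right _ _)
      have v1 := val_of_dvd hqp a0 a1 d1
      have v2 := val_of_dvd hqp b1 b0 (by
        unfold dg at d2
        rwa [Int.gcd_comm] at d2)
      rcases hq q hqp with h | h
      · have := h B hB hB'
        omega
      · have := h A hA hA'
        omega
    have hres : ∀ A ∈ F, A.det ≠ 0 →
        resc N A = !![A 0 0 / dg A, N * A 0 1 / dg A; 0, A 1 1 / dg A] := by
      intro A _ h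
      unfold resc
      rw [if_neg h]
    have habs : ∀ x g : ℤ, 0 < g → g ∣ x → |x / g| * g = |x| := by
      intro x g hg hgx
      rw [← abs_of_pos hg]
      conv_lhs => rw [abs_of_pos hg]
      rw [show |x / g| * g = |x / g| * |g| by rw [abs_of_pos hg], ← abs_mul,
        Int.ediv_mul_cancel hgx]
    apply mortal_tri_both (resc N '' F) (H.factorial ^ 2 * H)
    · rintro X ⟨A, hA, rfl⟩ i j
      have hH0 : (0 : ℤ) ≤ H := Int.natCast_nonneg _
      have hle1 : (H : ℤ) ≤ N ^ 2 * H := le_mul_of_one_le_left hH0 (by nlinarith)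
      have hle2 : N * H ≤ N ^ 2 * H := by nlinarith
      have hgoal : (((H.factorial ^ 2 * H : ℕ)) : ℤ) = N ^ 2 * H := by
        rw [hNdef]; push_cast; ring
      rw [hgoal]
      by_cases hdet : A.det = 0
      · unfold resc
        rw [if_pos hdet]
        have s00 := hS A hA 0 0
        have s01 := hS A hA 0 1
        have s10 := hS A hA 1 0
        have s11 := hS A hA 1 1
        fin_cases i <;> fin_cases j <;> simp only [Fin.zero_eta, Fin.mk_one, Fin.isValue,
          Matrix.of_apply, Matrix.cons_val', Matrix.cons_val_zero, Matrix.cons_val_one,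
          Matrix.cons_val_fin_one]
        · rw [abs_mul, abs_of_pos (by linarith : (0 : ℤ) < N)]
          exact (mul_le_mul_of_nonneg_left s00 (by linarith)).trans hle2
        · rw [abs_mul, abs_of_pos (by positivity : (0 : ℤ) < N ^ 2)]
          exact mul_le_mul_of_nonneg_left s01 (by positivity)
        · exact s10.trans hle1
        · rw [abs_mul, abs_of_pos (by linarith : (0 : ℤ) < N)]
          exact (mul_le_mul_of_nonneg_left s11 (by linarith)).trans hle2
      · rw [hres A hA hdet]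
        have hg := dg_pos (hN A hA hdet) hdet
        have hg1 : 1 ≤ dg A := hg
        have t00 := habs (A 0 0) (dg A) hg (Int.gcd_dvd_left _ _)
        have t11 := habs (A 1 1) (dg A) hg (Int.gcd_dvd_right _ _)
        have t01 := habs (N * A 0 1) (dg A) hg (hdv A hA hdet)
        have s00 := hS A hA 0 0
        have s01 := hS A hA 0 1
        have s11 := hS A hA 1 1
        fin_cases i <;> fin_cases j <;> simp only [Fin.zero_eta, Fin.mk_one, Fin.isValue,
          Matrix.of_apply, Matrix.cons_val', Matrix.cons_val_zero, Matrix.cons_val_one,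
          Matrix.cons_val_fin_one]
        · have : |A 0 0 / dg A| ≤ |A 0 0 / dg A| * dg A :=
            le_mul_of_one_le_right (abs_nonneg _) hg1
          linarith
        · have h1 : |N * A 0 1 / dg A| ≤ |N * A 0 1 / dg A| * dg A :=
            le_mul_of_one_le_right (abs_nonneg _) hg1
          rw [t01, abs_mul, abs_of_pos (by linarith : (0 : ℤ) < N)] at h1
          exact (h1.trans (mul_le_mul_of_nonneg_left s01 (by linarith))).trans hle2
        · rw [abs_zero]
          positivity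
        · have : |A 1 1 / dg A| ≤ |A 1 1 / dg A| * dg A :=
            le_mul_of_one_le_right (abs_nonneg _) hg1
          linarith
    · rintro X ⟨A, hA, rfl⟩ h
      have hdet := (resc_det hN0 (hN A hA) (hdv A hA)).1 h
      rw [hres A hA hdet]
      simp
    · have hlt : ∀ A ∈ F, A.det ≠ 0 → ∀ x y : ℤ, dg A ∣ x → dg A ∣ y → |x| < |y| →
          |x / dg A| < |y / dg A| := by
        intro A hA hdet x y hx hy hxy
        have hg := dg_pos (hN A hA hdet) hdet
        have t1 := habs x (dg A) hg hx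
        have t2 := habs y (dg A) hg hy
        rw [← t1, ← t2] at hxy
        exact lt_of_mul_lt_mul_right hxy hg.le
      rcases hd with hd | hd
      · left
        rintro X ⟨A, hA, rfl⟩ h
        have hdet := (resc_det hN0 (hN A hA) (hdv A hA)).1 h
        rw [hres A hA hdet]
        simp only [Fin.isValue, Matrix.of_apply, Matrix.cons_val', Matrix.cons_val_zero,
          Matrix.cons_val_one, Matrix.cons_val_fin_one]
        exact hlt A hA hdet _ _ (Int.gcd_dvd_right _ _) (Int.gcd_dvd_left _ _) (hd A hA hdet)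
      · right
        rintro X ⟨A, hA, rfl⟩ h
        have hdet := (resc_det hN0 (hN A hA) (hdv A hA)).1 h
        rw [hres A hA hdet]
        simp only [Fin.isValue, Matrix.of_apply, Matrix.cons_val', Matrix.cons_val_zero,
          Matrix.cons_val_one, Matrix.cons_val_fin_one]
        exact hlt A hA hdet _ _ (Int.gcd_dvd_left _ _) (Int.gcd_dvd_right _ _) (hd A hA hdet)
    · rintro X ⟨A, hA, rfl⟩ h X' ⟨B, hB, rfl⟩ h'
      have hdetA := (resc_det hN0 (hN A hA) (hdv A hA)).1 h
      have hdetB := (resc_det hN0 (hN B hB) (hdv B hB)).1 h'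
      rw [hres A hA hdetA, hres B hB hdetB]
      simp only [Fin.isValue, Matrix.of_apply, Matrix.cons_val', Matrix.cons_val_zero,
        Matrix.cons_val_one, Matrix.cons_val_fin_one]
      exact hcop A hA hdetA B hB hdetB
    · obtain ⟨w, h1, h2, h3⟩ := hM
      refine ⟨w.map (resc N), by simpa using h1, ?_, ?_⟩
      · intro X hX
        rw [List.mem_map] at hX
        obtain ⟨A, hA, rfl⟩ := hX
        exact ⟨A, h2 A hA, rfl⟩
      · exact (resc_zero_iff N hN0 w (fun A hA => hN A (h2 A hA))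
          (fun A hA => hdv A (h2 A hA))).2 h3
  obtain ⟨w, h1, h2, h3, h4⟩ := hmain
  obtain ⟨w', h5, rfl⟩ := exists_list_map h2
  refine ⟨w', ?_, h5, ?_, by simpa using h4⟩
  · intro h
    apply h1
    rw [h]
    rfl
  · exact (resc_zero_iff N hN0 w' (fun A hA => hN A (h5 A hA))
      (fun A hA => hdv A (h5 A hA))).1 h3

end Pool.Agent.MP_571595_lc.H12
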